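import Pool.Agent.H867.FT.Gen2

/-!
# FTQ LFR: `unm x` is not contained in height one primes
-/

set_option autoImplicit false

namespace Pool.Agent.H671.FTLFR

open Pool.Agent.H867.FT

/-- the localization at a prime of height one -/
theorem isDVR (P : Type) [CommRing P] [IsDomain P] [IsNoetherianRing P] [IsIntegrallyClosed P]
    (𝔭 : Ideal P) [h𝔭 : 𝔭.IsPrime] (hh : 𝔭.height = 1) :
    IsDiscreteValuationRing (Localization.AtPrime 𝔭) := by
  have hdim : ringKrullDim (Localization.AtPrime 𝔭) = 1 := by
    rw [IsLocalization.AtPrime.ringKrullDim_eq_height 𝔭 (Localization.AtPrime 𝔭), hh]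
    rfl
  have : IsNoetherianRing (Localization.AtPrime 𝔭) :=
    IsLocalization.isNoetherianRing 𝔭.primeCompl _ inferInstance
  have hic : IsIntegrallyClosed (Localization.AtPrime 𝔭) :=
    isIntegrallyClosed_of_isLocalization (R := P) (S := Localization.AtPrime 𝔭) 𝔭.primeCompl
      (Ideal.primeCompl_le_nonZeroDivisors 𝔭)
  have : Ring.KrullDimLE 1 (Localization.AtPrime 𝔭) := Ring.krullDimLE_iff.2 (le_of_eq hdim)
  have hnf : ¬ IsField (Localization.AtPrime 𝔭) := by
    intro hf
    have := ringKrullDim_eq_zero_of_isField hf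
    rw [hdim] at this
    exact one_ne_zero this
  have h : (IsIntegrallyClosed (Localization.AtPrime 𝔭) ∧
      ∃! Q : Ideal (Localization.AtPrime 𝔭), Q ≠ ⊥ ∧ Q.IsPrime) ↔
      IsDiscreteValuationRing (Localization.AtPrime 𝔭) :=
    (IsDiscreteValuationRing.TFAE (Localization.AtPrime 𝔭) hnf).out 3 0
  refine h.1 ⟨hic, IsLocalRing.maximalIdeal _, ⟨?_, inferInstance⟩, ?_⟩
  · exact fun h => hnf (IsLocalRing.isField_iff_maximalIdeal_eq.2 h)
  · rintro Q ⟨hQ, hQ'⟩
    exact IsLocalRing.eq_maximalIdeal (hQ'.isMaximal_of_ne_bot hQ)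

theorem exists_free (P R : Type) [CommRing P] [IsDomain P] [IsNoetherianRing P]
    [IsIntegrallyClosed P] [CommRing R] [IsDomain R] [Algebra P R] [Module.Finite P R]
    [FaithfulSMul P R] (𝔮 : Ideal P) [𝔮.IsPrime] (hh : 𝔮.height = 1) :
    ∃ (ι : Type) (_ : Fintype ι) (g : ι → R) (c : P), LinearIndependent P g ∧ c ∉ 𝔮 ∧
      ∀ r : R, c • r ∈ Submodule.span P (Set.range g) := by
  classical
  have hinj : Function.Injective (algebraMap P R) := FaithfulSMul.algebraMap_injective P R
  have hdvr := isDVR P 𝔮 hh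
  have htf : Module.IsTorsionFree P R := inferInstance
  let S := 𝔮.primeCompl
  let V := Localization.AtPrime 𝔮
  let W := LocalizedModule S R
  let f : R →ₗ[P] W := LocalizedModule.mkLinearMap S R
  have hS0 : ∀ s ∈ S, s ≠ 0 := by
    rintro s hs rfl
    exact hs 𝔮.zero_mem
  have hfinj : Function.Injective f := by
    intro x y hxy
    obtain ⟨c, hc⟩ := (IsLocalizedModule.eq_iff_exists S f).mp hxy
    have hc' : (c : P) • x = (c : P) • y := hc
    rw [Algebra.smul_def, Algebra.smul_def] at hc'
    have hc0 : algebraMap P R c ≠ 0 := by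
      intro h
      exact hS0 c c.2 (hinj (by rw [h, map_zero]))
    exact mul_left_cancel₀ hc0 hc'
  have : Module.Finite V W := Module.Finite.of_isLocalizedModule S (Rₚ := V) f
  have : Module.IsTorsionFree V W := inferInstanceAs
    (Module.IsTorsionFree (Localization S) (LocalizedModule S R))
  have : IsPrincipalIdealRing V := inferInstance
  have : Module.Free V W := Module.free_of_finite_type_torsion_free'
  let b := Module.Free.chooseBasis V W
  choose gs hgs using fun i => IsLocalizedModule.surj S f (b i)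
  have hgs' : ∀ i, algebraMap P V (gs i).2 • b i = f (gs i).1 := by
    intro i
    rw [algebraMap_smul]
    exact hgs i
  have hVinj : Function.Injective (algebraMap P V) :=
    IsLocalization.injective V (Ideal.primeCompl_le_nonZeroDivisors 𝔮)
  have hli : LinearIndependent P (fun i => (gs i).1) := by
    rw [Fintype.linearIndependent_iff]
    intro p hp i
    have h1 : ∑ i, (algebraMap P V (p i * (gs i).2)) • b i = 0 := by
      have h2 := congrArg f hp
      rw [map_sum, map_zero] at h2
      rw [← h2]
      refine Finset.sum_congr rfl fun i _ => ?_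
      rw [map_mul, mul_smul, hgs', map_smul, algebraMap_smul]
    have h2 := Fintype.linearIndependent_iff.mp b.linearIndependent _ h1 i
    have h3 : p i * (gs i).2 = 0 := hVinj (by rw [h2, map_zero])
    exact (mul_eq_zero.mp h3).resolve_right (hS0 _ (gs i).2.2)
  -- one element
  have hone : ∀ r : R, ∃ c : P, c ∈ S ∧
      c • r ∈ Submodule.span P (Set.range fun i => (gs i).1) := by
    intro r
    have hu : ∀ i, IsUnit (algebraMap P V (gs i).2) := fun i =>
      IsLocalization.map_units V (gs i).2
    choose u hu' using fun i => (hu i)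
    have h1 : f r = ∑ i, (b.repr (f r) i * ((u i)⁻¹ : Vˣ)) • f (gs i).1 := by
      conv_lhs => rw [← b.sum_repr (f r)]
      refine Finset.sum_congr rfl fun i _ => ?_
      rw [mul_smul, ← hgs', ← hu', ← mul_smul ((u i)⁻¹ : Vˣ).1, Units.inv_mul, one_smul]
    obtain ⟨c, hc⟩ := IsLocalization.exist_integer_multiples_of_finite S
      (fun i => b.repr (f r) i * ((u i)⁻¹ : Vˣ))
    choose p hp using hc
    refine ⟨c, c.2, ?_⟩
    have h2 : f ((c : P) • r) = f (∑ i, p i • (gs i).1) := by
      rw [map_smul, map_sum, h1, Finset.smul_sum]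
      refine Finset.sum_congr rfl fun i _ => ?_
      rw [map_smul, ← algebraMap_smul V (p i), hp, ← algebraMap_smul V (c : P), ← mul_smul,
        Algebra.smul_def]
    rw [hfinj h2]
    exact Submodule.sum_mem _ fun i _ => Submodule.smul_mem _ _ (Submodule.subset_span ⟨i, rfl⟩)
  -- all elements
  obtain ⟨T, hT⟩ := (Module.Finite.fg_top : (⊤ : Submodule P R).FG)
  choose cc hcc1 hcc2 using hone
  refine ⟨_, inferInstance, fun i => (gs i).1, ∏ t ∈ T, cc t, hli, ?_, ?_⟩
  · exact S.prod_mem fun t _ => hcc1 t
  · intro r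
    have hr : r ∈ Submodule.span P (T : Set R) := by
      rw [hT]
      exact Submodule.mem_top
    induction hr using Submodule.span_induction with
    | mem t ht =>
      rw [← Finset.mul_prod_erase T cc ht, mul_comm, mul_smul]
      exact Submodule.smul_mem _ _ (hcc2 t)
    | zero =>
      rw [smul_zero]
      exact Submodule.zero_mem _
    | add y z _ _ hy hz =>
      rw [smul_add]
      exact Submodule.add_mem _ hy hz
    | smul a y _ hy =>
      rw [smul_comm]
      exact Submodule.smul_mem _ _ hy

theorem lfr : S_LFR := by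
  intro P R _ _ _ _ _ _ _ _ _ d x hx 𝔮 h𝔮 hh
  classical
  obtain ⟨ι, _, g, c, hli, hc, hspan⟩ := exists_free P R 𝔮 hh
  refine ⟨c, hc, ?_⟩
  intro s i a hs ha
  -- coordinates of `c r`
  let G := Submodule.span P (Set.range g)
  let bs : Module.Basis ι P G := Module.Basis.span hli
  let ψ : R →ₗ[P] G := LinearMap.codRestrict G (c • LinearMap.id) (fun r => hspan r)
  let φ : ι → R →ₗ[P] P := fun k => (bs.coord k) ∘ₗ ψ
  have hφ : ∀ r : R, c • r = ∑ k, φ k r • g k := by
    intro r
    have h1 := congrArg (fun z : G => (z : R)) (bs.sum_repr (ψ r))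
    have h2 : ((ψ r : G) : R) = c • r := rfl
    rw [← h2, ← h1]
    simp only [AddSubmonoidClass.coe_finsetSum, Submodule.coe_smul]
    refine Finset.sum_congr rfl fun k _ => ?_
    congr 1
    exact congrArg (fun z : G => (z : R)) (Module.Basis.span_apply hli k)
  let I : Ideal P := Ideal.span {y | ∃ j, j < i ∧ y = x j ^ s}
  have hmem : ∀ k, ∀ y ∈ Ideal.span {y : R | ∃ j, j < i ∧ y = algebraMap P R (x j) ^ s},
      ∀ r : R, φ k (r * y) ∈ I := by
    intro k y hy
    induction hy using Submodule.span_induction with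
    | mem y hy =>
      obtain ⟨j, hj, rfl⟩ := hy
      intro r
      have h1 : r * algebraMap P R (x j) ^ s = (x j ^ s) • r := by
        rw [Algebra.smul_def, map_pow, mul_comm]
      rw [h1, map_smul, smul_eq_mul]
      exact I.mul_mem_right _ (Ideal.subset_span ⟨j, hj, rfl⟩)
    | zero =>
      intro r
      rw [mul_zero, map_zero]
      exact I.zero_mem
    | add y z _ _ hy hz =>
      intro r
      rw [mul_add, map_add]
      exact I.add_mem (hy r) (hz r)
    | smul t y _ hy =>
      intro r
      rw [smul_eq_mul, ← mul_assoc]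
      exact hy _
  have ha2 : ∀ k, φ k a ∈ I := by
    intro k
    have h1 := hmem k _ ha 1
    have h2 : (1 : R) * (algebraMap P R (x i) ^ s * a) = (x i ^ s) • a := by
      rw [Algebra.smul_def, map_pow, one_mul]
    rw [h2, map_smul, smul_eq_mul] at h1
    have h3 : (1 : P) ∈ unm x := by
      rw [hx]
      exact Submodule.mem_top
    have h4 := h3 s i (φ k a) hs h1
    rwa [one_mul] at h4
  have hI : ∀ y ∈ I, algebraMap P R y ∈
      Ideal.span {y : R | ∃ j, j < i ∧ y = algebraMap P R (x j) ^ s} := by
    intro y hy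
    have : I ≤ (Ideal.span {y : R | ∃ j, j < i ∧ y = algebraMap P R (x j) ^ s}).comap
        (algebraMap P R) := by
      rw [Ideal.span_le]
      rintro y ⟨j, hj, rfl⟩
      rw [SetLike.mem_coe, Ideal.mem_comap, map_pow]
      exact Ideal.subset_span ⟨j, hj, rfl⟩
    exact this hy
  have h5 : algebraMap P R c * a = ∑ k, φ k a • g k := by
    rw [← hφ, Algebra.smul_def]
  rw [h5]
  refine Ideal.sum_mem _ fun k _ => ?_
  rw [Algebra.smul_def]
  exact Ideal.mul_mem_right _ _ (hI _ (ha2 k))

end Pool.Agent.H671.FTLFR
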