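import Pool.Agent.H840.AS.Stm
import Pool.Agent.H840.KO.Int

set_option autoImplicit false

/-!
# S_CNT: continuity of planar integrals of `log |f|`
-/

open Complex Filter Topology MeasureTheory Set Metric

open scoped ComplexConjugate

namespace Pool.Agent.H671.CNT

/-- `1 / (u (1 + u)) ^ (3/2)`. -/
noncomputable def ka (u : ℝ) : ℝ := ((Real.sqrt u * Real.sqrt (1 + u)) ^ 3)⁻¹

theorem ka_nonneg (u : ℝ) : 0 ≤ ka u := by unfold ka; positivity

theorem measurable_ka : Measurable ka := by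
  unfold ka
  fun_prop

theorem continuousAt_ka {u : ℝ} (hu : 0 < u) : ContinuousAt ka u := by
  unfold ka
  have h1 := Real.sqrt_pos.2 hu
  have h2 := Real.sqrt_pos.2 (by linarith : 0 < 1 + u)
  refine ContinuousAt.inv₀ (by fun_prop) (by positivity)

theorem integrable_ka : Integrable fun x : ℂ => ka ‖x‖ := by
  have hm : Measurable fun x : ℂ => ka ‖x‖ := measurable_ka.comp measurable_norm
  have h1 : IntegrableOn (fun x : ℂ => ka ‖x‖) (ball 0 1) := by
    refine Integrable.mono' (Pool.Agent.H840.KO.integrableOn_ball_zero (α := 3 / 2) (R := 1)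
      (by norm_num)) hm.aestronglyMeasurable.restrict ?_
    refine Filter.Eventually.of_forall fun x => ?_
    rw [Real.norm_of_nonneg (ka_nonneg _)]
    have h0 : 0 ≤ ‖x‖ := norm_nonneg x
    rcases h0.eq_or_lt with h | h
    · rw [← h]
      unfold ka
      simp
    · rw [Real.rpow_neg h0]
      unfold ka
      have h2 : ‖x‖ ^ ((3 / 2 : ℝ)) = Real.sqrt ‖x‖ ^ 3 := by
        rw [Real.sqrt_eq_rpow, ← Real.rpow_natCast, ← Real.rpow_mul h0]
        norm_num
      rw [h2]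
      have h3 := Real.sqrt_pos.2 h
      have h4 : 1 ≤ Real.sqrt (1 + ‖x‖) := by
        rw [Real.one_le_sqrt]; linarith
      apply inv_anti₀ (by positivity)
      apply pow_le_pow_left₀ h3.le
      nlinarith
  have h3 : IntegrableOn (fun x : ℂ => ka ‖x‖) (ball 0 1)ᶜ := by
    refine Integrable.mono' (Pool.Agent.H840.KO.integrableOn_compl_ball (α := 3) (by norm_num)
      (by norm_num : (0:ℝ) < 1)) hm.aestronglyMeasurable.restrict ?_
    refine (ae_restrict_iff' measurableSet_ball.compl).2 (Filter.Eventually.of_forall fun x hx => ?_)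
    have hx1 : 1 ≤ ‖x‖ := by simpa using hx
    rw [Real.norm_of_nonneg (ka_nonneg _), Real.rpow_neg (norm_nonneg _)]
    have h4 : ‖x‖ ^ (3 : ℝ) = ‖x‖ ^ 3 := by exact_mod_cast Real.rpow_natCast ‖x‖ 3
    rw [h4]
    unfold ka
    apply inv_anti₀ (by positivity)
    apply pow_le_pow_left₀ (norm_nonneg _)
    rw [← Real.sqrt_mul (norm_nonneg _)]
    apply Real.le_sqrt_of_sq_le
    nlinarith
  have := h1.union h3
  rwa [union_compl_self, integrableOn_univ] at this

/-- The integrand. -/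
noncomputable def Fi (n : Fin 5 → ℤ) (c : ℂ) (p q : ℕ) (e : Fin 5 → ℂ) (x : ℂ) : ℂ :=
  ((2 * Real.log ‖c * ∏ k, (x - e k) ^ n k‖ / ‖∏ k, (x - e k)‖ : ℝ) : ℂ) * (x ^ p * conj x ^ q)

theorem measurable_Fi (n : Fin 5 → ℤ) (c : ℂ) (p q : ℕ) (e : Fin 5 → ℂ) :
    Measurable (Fi n c p q e) := by
  unfold Fi
  fun_prop

/-- The dominating function. -/
noncomputable def Gd (C : ℝ) (e : Fin 5 → ℂ) (x : ℂ) : ℝ := C * ∑ k, ka ‖x - e k‖

theorem integrable_Gd (C : ℝ) (e : Fin 5 → ℂ) : Integrable (Gd C e) := by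
  unfold Gd
  refine Integrable.const_mul ?_ C
  exact integrable_finsetSum _ fun k _ => integrable_ka.comp_sub_right (e k)

theorem integral_Gd (C : ℝ) (e : Fin 5 → ℂ) : ∫ x, Gd C e x = C * (5 * ∫ x : ℂ, ka ‖x‖) := by
  unfold Gd
  rw [integral_const_mul, integral_finsetSum _ fun k _ => integrable_ka.comp_sub_right (e k)]
  have : ∀ k : Fin 5, ∫ x : ℂ, ka ‖x - e k‖ = ∫ x : ℂ, ka ‖x‖ := by
    intro k
    exact integral_sub_right_eq_self (fun x : ℂ => ka ‖x‖) _
  simp only [this]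
  simp

theorem log_ratio {U : ℝ} (hU : 0 < U) :
    |Real.log U - Real.log (1 + U)| ≤ 2 * (Real.sqrt (1 + U) / Real.sqrt U) := by
  have h1 := Real.sqrt_pos.2 hU
  have h2 := Real.sqrt_pos.2 (by linarith : 0 < 1 + U)
  have h3 : Real.log U ≤ Real.log (1 + U) := Real.log_le_log hU (by linarith)
  rw [abs_of_nonpos (by linarith)]
  have h4 : Real.log U = 2 * Real.log (Real.sqrt U) := by
    rw [Real.log_sqrt hU.le]; ring
  have h5 : Real.log (1 + U) = 2 * Real.log (Real.sqrt (1 + U)) := by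
    rw [Real.log_sqrt (by linarith)]; ring
  have h6 : Real.log (Real.sqrt (1 + U) / Real.sqrt U) ≤ Real.sqrt (1 + U) / Real.sqrt U - 1 :=
    Real.log_le_sub_one_of_pos (by positivity)
  rw [Real.log_div h2.ne' h1.ne'] at h6
  linarith

theorem log_f {n : Fin 5 → ℤ} (hn : ∑ k, n k = 0) {c : ℂ} (hc : c ≠ 0) {e : Fin 5 → ℂ} {x : ℂ}
    (hx : ∀ k, x ≠ e k) (L : ℝ) :
    Real.log ‖c * ∏ k, (x - e k) ^ n k‖ =
      Real.log ‖c‖ + ∑ k, (n k : ℝ) * (Real.log ‖x - e k‖ - L) := by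
  have h0 : ∀ k, ‖x - e k‖ ≠ 0 := fun k => norm_ne_zero_iff.2 (sub_ne_zero.2 (hx k))
  rw [norm_mul, norm_prod, Real.log_mul (norm_ne_zero_iff.2 hc)
    (Finset.prod_ne_zero_iff.2 fun k _ => by rw [norm_zpow]; exact zpow_ne_zero _ (h0 k)),
    Real.log_prod (fun k _ => by rw [norm_zpow]; exact zpow_ne_zero _ (h0 k))]
  congr 1
  simp only [norm_zpow, Real.log_zpow, mul_sub, Finset.sum_sub_distrib]
  rw [← Finset.sum_mul]
  have : ∑ k, (n k : ℝ) = 0 := by exact_mod_cast hn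
  rw [this]
  ring

/-- The bound near a point. -/
theorem bound {δ R : ℝ} (hδ : 0 < δ) (hR : 0 ≤ R) {n : Fin 5 → ℤ} (hn : ∑ k, n k = 0) {c : ℂ}
    (hc : c ≠ 0) {p q : ℕ} (hp : p ≤ 1) (hq : q ≤ 1) :
    ∃ C : ℝ, 0 ≤ C ∧ ∀ e : Fin 5 → ℂ, (∀ k l, k ≠ l → δ ≤ ‖e k - e l‖) → (∀ k, ‖e k‖ ≤ R) →
      ∀ x, (∀ k, x ≠ e k) → ‖Fi n c p q e x‖ ≤ Gd C e x := by
  obtain ⟨γ, hγ⟩ : ∃ γ : ℝ, γ = δ / (2 + δ) := ⟨_, rfl⟩
  have hγ0 : 0 < γ := by rw [hγ]; positivity
  obtain ⟨C1, hC1⟩ : ∃ C1 : ℝ, C1 = |Real.log γ| + Real.log (1 + 2 * R) := ⟨_, rfl⟩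
  have hlogR : 0 ≤ Real.log (1 + 2 * R) := Real.log_nonneg (by linarith)
  have hC10 : 0 ≤ C1 := by rw [hC1]; positivity
  obtain ⟨C2, hC2⟩ : ∃ C2 : ℝ, C2 = |Real.log ‖c‖| + (∑ k, |(n k : ℝ)|) * (C1 + 2) := ⟨_, rfl⟩
  have hC20 : 0 ≤ C2 := by
    rw [hC2]
    have : 0 ≤ ∑ k, |(n k : ℝ)| := Finset.sum_nonneg fun _ _ => abs_nonneg _
    positivity
  refine ⟨2 * C2 * (1 + R) ^ 2 / γ ^ 4, by positivity, fun e hsep hbd x hx => ?_⟩
  obtain ⟨k0, -, hk0⟩ := Finset.exists_min_image Finset.univ (fun k => ‖x - e k‖)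
    ⟨0, Finset.mem_univ _⟩
  obtain ⟨U, hU⟩ : ∃ U : ℝ, U = ‖x - e k0‖ := ⟨_, rfl⟩
  have hU0 : 0 < U := by rw [hU]; exact norm_pos_iff.2 (sub_ne_zero.2 (hx k0))
  -- distances from below
  have h1 : ∀ l, l ≠ k0 → γ * (1 + U) ≤ ‖x - e l‖ := by
    intro l hl
    have h2 : U ≤ ‖x - e l‖ := hU ▸ hk0 l (Finset.mem_univ _)
    have h3 := hsep k0 l (Ne.symm hl)
    have h4 : ‖e k0 - e l‖ ≤ ‖x - e l‖ + ‖x - e k0‖ := by
      calc ‖e k0 - e l‖ = ‖(x - e l) - (x - e k0)‖ := by congr 1; ring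
        _ ≤ _ := norm_sub_le _ _
    rw [← hU] at h4
    have h5 : δ / 2 ≤ ‖x - e l‖ := by linarith
    rw [hγ, div_mul_eq_mul_div, div_le_iff₀ (by positivity)]
    nlinarith
  -- distances from above
  have h2 : ∀ l, ‖x - e l‖ ≤ (1 + 2 * R) * (1 + U) := by
    intro l
    have h4 : ‖x - e l‖ ≤ ‖x - e k0‖ + ‖e k0‖ + ‖e l‖ := by
      calc ‖x - e l‖ = ‖(x - e k0) + e k0 - e l‖ := by congr 1; ring
        _ ≤ ‖(x - e k0) + e k0‖ + ‖e l‖ := norm_sub_le _ _
        _ ≤ _ := by gcongr; exact norm_add_le _ _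
    rw [← hU] at h4
    have := hbd k0
    have := hbd l
    nlinarith
  obtain ⟨s, hs⟩ : ∃ s : ℝ, s = Real.sqrt (1 + U) / Real.sqrt U := ⟨_, rfl⟩
  have hsU := Real.sqrt_pos.2 hU0
  have hsU1 := Real.sqrt_pos.2 (by linarith : 0 < 1 + U)
  have hs1 : 1 ≤ s := by
    rw [hs, one_le_div hsU]
    exact Real.sqrt_le_sqrt (by linarith)
  have h3 : ∀ l, |Real.log ‖x - e l‖ - Real.log (1 + U)| ≤ (C1 + 2) * s := by
    intro l
    by_cases hl : l = k0
    · subst hl
      rw [← hU]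
      have := log_ratio hU0
      rw [← hs] at this
      nlinarith
    · have h4 := h1 l hl
      have h5 := h2 l
      have h6 : Real.log γ + Real.log (1 + U) ≤ Real.log ‖x - e l‖ := by
        rw [← Real.log_mul hγ0.ne' (by positivity)]
        exact Real.log_le_log (by positivity) h4
      have h7 : Real.log ‖x - e l‖ ≤ Real.log (1 + 2 * R) + Real.log (1 + U) := by
        rw [← Real.log_mul (by positivity) (by positivity)]
        exact Real.log_le_log (norm_pos_iff.2 (sub_ne_zero.2 (hx l))) h5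
      have h8 : |Real.log ‖x - e l‖ - Real.log (1 + U)| ≤ C1 := by
        rw [abs_le, hC1]
        have := neg_abs_le (Real.log γ)
        have := abs_nonneg (Real.log γ)
        constructor <;> linarith
      nlinarith
  have h4 : |Real.log ‖c * ∏ k, (x - e k) ^ n k‖| ≤ C2 * s := by
    rw [log_f hn hc hx (Real.log (1 + U))]
    calc |Real.log ‖c‖ + ∑ k, (n k : ℝ) * (Real.log ‖x - e k‖ - Real.log (1 + U))|
        ≤ |Real.log ‖c‖| + |∑ k, (n k : ℝ) * (Real.log ‖x - e k‖ - Real.log (1 + U))| :=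
          abs_add_le _ _
      _ ≤ |Real.log ‖c‖| + ∑ k, |(n k : ℝ)| * ((C1 + 2) * s) := by
          gcongr
          refine (Finset.abs_sum_le_sum_abs _ _).trans (Finset.sum_le_sum fun k _ => ?_)
          rw [abs_mul]
          exact mul_le_mul_of_nonneg_left (h3 k) (abs_nonneg _)
      _ ≤ |Real.log ‖c‖| * s + ∑ k, |(n k : ℝ)| * ((C1 + 2) * s) := by
          gcongr
          exact le_mul_of_one_le_right (abs_nonneg _) hs1
      _ = C2 * s := by rw [← Finset.sum_mul, hC2]; ring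
  -- the denominator
  have h5 : U * (γ * (1 + U)) ^ 4 ≤ ‖∏ k, (x - e k)‖ := by
    rw [norm_prod, ← Finset.mul_prod_erase Finset.univ _ (Finset.mem_univ k0), ← hU]
    refine mul_le_mul_of_nonneg_left ?_ hU0.le
    calc (γ * (1 + U)) ^ 4 = ∏ l ∈ Finset.univ.erase k0, (γ * (1 + U)) := by
          rw [Finset.prod_const, Finset.card_erase_of_mem (Finset.mem_univ _)]; simp
      _ ≤ _ := Finset.prod_le_prod (fun _ _ => by positivity)
          fun l hl => h1 l (Finset.ne_of_mem_erase hl)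
  -- the numerator
  have h6 : ‖x ^ p * conj x ^ q‖ ≤ ((1 + R) * (1 + U)) ^ 2 := by
    have hxU : 1 + ‖x‖ ≤ (1 + R) * (1 + U) := by
      have h7 : ‖x‖ ≤ ‖x - e k0‖ + ‖e k0‖ := by
        calc ‖x‖ = ‖(x - e k0) + e k0‖ := by congr 1; ring
          _ ≤ _ := norm_add_le _ _
      have := hbd k0
      rw [← hU] at h7
      nlinarith
    have hx0 := norm_nonneg x
    have hpw : ∀ p : ℕ, p ≤ 1 → ‖x‖ ^ p ≤ (1 + R) * (1 + U) := by
      intro p hp
      interval_cases p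
      · simp; linarith
      · simp; linarith
    rw [norm_mul, norm_pow, norm_pow, Complex.norm_conj, _root_.sq]
    exact mul_le_mul (hpw p hp) (hpw q hq) (by positivity) (by positivity)
  have h7 : ka U ≤ ∑ k, ka ‖x - e k‖ := by
    rw [hU]
    exact Finset.single_le_sum (f := fun k => ka ‖x - e k‖)
      (fun k _ => ka_nonneg _) (Finset.mem_univ k0)
  have hden : 0 < ‖∏ k, (x - e k)‖ := lt_of_lt_of_le (by positivity) h5
  unfold Fi Gd
  rw [norm_mul, Complex.norm_real, Real.norm_eq_abs, abs_div, abs_mul, abs_two,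
    abs_of_pos hden]
  calc 2 * |Real.log ‖c * ∏ k, (x - e k) ^ n k‖| / ‖∏ k, (x - e k)‖ * ‖x ^ p * conj x ^ q‖
      ≤ 2 * (C2 * s) / (U * (γ * (1 + U)) ^ 4) * ((1 + R) * (1 + U)) ^ 2 := by
        gcongr
    _ = 2 * C2 * (1 + R) ^ 2 / γ ^ 4 * ka U := by
        unfold ka
        rw [hs]
        obtain ⟨v, hv⟩ : ∃ v, v = Real.sqrt U := ⟨_, rfl⟩
        obtain ⟨w, hw⟩ : ∃ w, w = Real.sqrt (1 + U) := ⟨_, rfl⟩
        have hv2 : U = v ^ 2 := by rw [hv, Real.sq_sqrt hU0.le]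
        have hw2 : 1 + U = w ^ 2 := by rw [hw, Real.sq_sqrt (by linarith)]
        rw [← hv, ← hw] at *
        rw [hw2, hv2]
        field_simp
    _ ≤ 2 * C2 * (1 + R) ^ 2 / γ ^ 4 * ∑ k, ka ‖x - e k‖ := by
        gcongr

/-- Different points are separated. -/
theorem exists_sep {a : Fin 5 → ℂ} (ha : Function.Injective a) :
    ∃ δ : ℝ, 0 < δ ∧ ∀ k l, k ≠ l → δ ≤ ‖a k - a l‖ := by
  obtain ⟨y, hy, hmin⟩ := Finset.exists_min_image (Finset.univ : Finset (Fin 5)).offDiag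
    (fun y => ‖a y.1 - a y.2‖) ⟨(0, 1), by simp⟩
  refine ⟨‖a y.1 - a y.2‖, ?_, fun k l hkl => hmin (k, l) (by simpa using hkl)⟩
  rw [Finset.mem_offDiag] at hy
  exact norm_pos_iff.2 (sub_ne_zero.2 fun h => hy.2.2 (ha h))

theorem eventually_sep {a : Fin 5 → ℂ} (ha : Function.Injective a) :
    ∃ δ R : ℝ, 0 < δ ∧ 0 ≤ R ∧ ∀ᶠ e in 𝓝 a,
      (∀ k l, k ≠ l → δ ≤ ‖e k - e l‖) ∧ ∀ k, ‖e k‖ ≤ R := by
  obtain ⟨δ, hδ, h⟩ := exists_sep ha
  refine ⟨δ / 2, ‖a‖ + δ, by positivity, by positivity, ?_⟩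
  filter_upwards [Metric.ball_mem_nhds a (by positivity : 0 < δ / 4)] with e he
  rw [mem_ball, dist_eq_norm] at he
  have h1 : ∀ k, ‖e k - a k‖ < δ / 4 := fun k =>
    lt_of_le_of_lt (norm_le_pi_norm (e - a) k) he
  constructor
  · intro k l hkl
    have h2 := h k l hkl
    have h3 : ‖a k - a l‖ ≤ ‖e k - e l‖ + ‖e k - a k‖ + ‖e l - a l‖ := by
      calc ‖a k - a l‖ = ‖(e k - e l) - (e k - a k) + (e l - a l)‖ := by congr 1; ring
        _ ≤ ‖(e k - e l) - (e k - a k)‖ + ‖e l - a l‖ := norm_add_le _ _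
        _ ≤ _ := by gcongr; exact norm_sub_le _ _
    linarith [h1 k, h1 l]
  · intro k
    have h3 : ‖e k‖ ≤ ‖e k - a k‖ + ‖a k‖ := by
      calc ‖e k‖ = ‖(e k - a k) + a k‖ := by congr 1; ring
        _ ≤ _ := norm_add_le _ _
    have := norm_le_pi_norm a k
    linarith [h1 k]

theorem ae_ne (a : Fin 5 → ℂ) : ∀ᵐ x : ℂ, ∀ k, x ≠ a k := by
  rw [ae_all_iff]
  intro k
  exact MeasureTheory.Measure.ae_ne volume (a k)

theorem main : Pool.Agent.H840.AS.S_CNT := by
  intro a n c p q ha hn hc hp hq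
  obtain ⟨δ, R, hδ, hR, hev⟩ := eventually_sep ha
  obtain ⟨C, hC, hb⟩ := bound hδ hR hn hc hp hq
  have haS := hev.self_of_nhds
  have hba : ∀ᵐ x, ‖Fi n c p q a x‖ ≤ Gd C a x := by
    filter_upwards [ae_ne a] with x hx
    exact hb a haS.1 haS.2 x hx
  constructor
  · exact (integrable_Gd C a).mono' (measurable_Fi n c p q a).aestronglyMeasurable hba
  · change Tendsto (fun e : Fin 5 → ℂ => ∫ x : ℂ, Fi n c p q e x) (𝓝 a)
      (𝓝 (∫ x : ℂ, Fi n c p q a x))
    refine Pool.Agent.H840.AS.gdct (G := fun e => Gd C e) (g := Gd C a)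
      (Filter.Eventually.of_forall fun e => (measurable_Fi n c p q e).aestronglyMeasurable)
      (Filter.Eventually.of_forall fun e => integrable_Gd C e) (integrable_Gd C a) ?_ hba ?_ ?_ ?_
    · filter_upwards [hev] with e he
      filter_upwards [ae_ne e] with x hx
      exact hb e he.1 he.2 x hx
    · filter_upwards [ae_ne a] with x hx
      have hx' : ∀ k, x - a k ≠ 0 := fun k => sub_ne_zero.2 (hx k)
      have h1 : ContinuousAt (fun e : Fin 5 → ℂ => Fi n c p q e x) a := by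
        unfold Fi
        have hk : ∀ k : Fin 5, ContinuousAt (fun e : Fin 5 → ℂ => x - e k) a := fun k =>
          (continuous_const.sub (continuous_apply k)).continuousAt
        have h2 : ContinuousAt (fun e : Fin 5 → ℂ => ‖c * ∏ k, (x - e k) ^ n k‖) a := by
          refine ContinuousAt.norm (continuousAt_const.mul ?_)
          refine tendsto_finsetProd _ fun k _ => ?_
          exact (hk k).zpow₀ (n k) (Or.inl (hx' k))
        have h3 : ContinuousAt (fun e : Fin 5 → ℂ => ‖∏ k, (x - e k)‖) a := by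
          refine ContinuousAt.norm ?_
          exact tendsto_finsetProd _ fun k _ => hk k
        have h4 : ‖c * ∏ k, (x - a k) ^ n k‖ ≠ 0 := by
          refine norm_ne_zero_iff.2 (mul_ne_zero hc (Finset.prod_ne_zero_iff.2 fun k _ => ?_))
          exact zpow_ne_zero _ (hx' k)
        have h5 : ‖∏ k, (x - a k)‖ ≠ 0 :=
          norm_ne_zero_iff.2 (Finset.prod_ne_zero_iff.2 fun k _ => hx' k)
        have h6 := (continuousAt_const (y := (2:ℝ))).mul (h2.log h4)
        have h7 := h6.div h3 h5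
        exact (Complex.continuous_ofReal.continuousAt.comp h7).mul continuousAt_const
      exact h1
    · filter_upwards [ae_ne a] with x hx
      have h1 : ContinuousAt (fun e : Fin 5 → ℂ => Gd C e x) a := by
        unfold Gd
        refine continuousAt_const.mul ?_
        refine tendsto_finsetSum _ fun k _ => ?_
        have h2 : ContinuousAt (fun e : Fin 5 → ℂ => ‖x - e k‖) a :=
          (continuous_const.sub (continuous_apply k)).norm.continuousAt
        have h3 := continuousAt_ka (norm_pos_iff.2 (sub_ne_zero.2 (hx k)))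
        exact ContinuousAt.comp (f := fun e : Fin 5 → ℂ => ‖x - e k‖) h3 h2
      exact h1
    · simp only [integral_Gd]
      exact tendsto_const_nhds

end Pool.Agent.H671.CNT
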