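import Pool.Agent.H979.FR.Stm

/-!
# Isoperimetric inequality on transitive amenable graphs by random geodesics
-/

set_option autoImplicit false
set_option linter.unusedSectionVars false

open MeasureTheory ProbabilityTheory Finset
open scoped ENNReal NNReal

namespace Pool.Agent.H671.FRG

open Pool.Agent.H979.FR

variable {V : Type} {G : SimpleGraph V}

theorem dist_le_iso (hG : G.Connected) (φ : G ≃g G) (x y : V) :
    G.dist (φ x) (φ y) ≤ G.dist x y := by
  obtain ⟨w, hw⟩ := hG.exists_walk_length_eq_dist x y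
  rw [← hw, ← SimpleGraph.Walk.length_map φ.toHom w]
  exact SimpleGraph.dist_le (w.map φ.toHom)

theorem dist_iso (hG : G.Connected) (φ : G ≃g G) (x y : V) :
    G.dist (φ x) (φ y) = G.dist x y := by
  apply le_antisymm (dist_le_iso hG φ x y)
  have h := dist_le_iso hG φ.symm (φ x) (φ y)
  rwa [RelIso.symm_apply_apply, RelIso.symm_apply_apply] at h

/-- geodesics from `x` to `y`, continued by `y` -/
def Geo (G : SimpleGraph V) (x y : V) : Set (ℕ → V) :=
  {p | p 0 = x ∧ (∀ i < G.dist x y, G.Adj (p i) (p (i + 1))) ∧ ∀ i, G.dist x y ≤ i → p i = y}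

theorem dist_geo (hG : G.Connected) {x y : V} {p : ℕ → V} (hp : p ∈ Geo G x y) (k : ℕ) :
    G.dist x (p k) ≤ G.dist x y := by
  obtain ⟨h1, h2, h3⟩ := hp
  have key : ∀ k, k ≤ G.dist x y → G.dist x (p k) ≤ k := by
    intro k
    induction k with
    | zero =>
      intro _
      rw [h1, SimpleGraph.dist_self]
    | succ k ih =>
      intro hk
      have e1 := ih (by omega)
      have e2 : G.dist (p k) (p (k + 1)) = 1 := SimpleGraph.dist_eq_one_iff_adj.mpr (h2 k (by omega))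
      have e3 := hG.dist_triangle (u := x) (v := p k) (w := p (k + 1))
      omega
  by_cases hk : k ≤ G.dist x y
  · exact (key k hk).trans hk
  · rw [h3 k (by omega)]

theorem geo_nonempty (hG : G.Connected) (x y : V) : (Geo G x y).Nonempty := by
  obtain ⟨w, hw⟩ := hG.exists_walk_length_eq_dist x y
  refine ⟨w.getVert, w.getVert_zero, ?_, ?_⟩
  · intro i hi
    exact w.adj_getVert_succ (by omega)
  · intro i hi
    exact w.getVert_of_length_le (by omega)

theorem geo_finite (hG : G.Connected) (hb : ∀ (o : V) (n : ℕ), (ball G o n).Finite) (x y : V) :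
    (Geo G x y).Finite := by
  have hfin : (ball G x (G.dist x y)).Finite := hb _ _
  have : Finite (ball G x (G.dist x y)) := hfin
  apply Set.Finite.of_finite_image (f := fun p (i : Fin (G.dist x y)) => p i)
  · have h2 : (Set.pi Set.univ (fun _ : Fin (G.dist x y) => ball G x (G.dist x y))).Finite :=
      Set.Finite.pi (fun _ => hfin)
    apply h2.subset
    rintro _ ⟨p, hp, rfl⟩ i _
    exact dist_geo hG hp i
  · intro p hp q hq h
    funext i
    by_cases hi : i < G.dist x y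
    · exact congrFun h ⟨i, hi⟩
    · rw [hp.2.2 i (by omega), hq.2.2 i (by omega)]

theorem geo_image (hG : G.Connected) (φ : G ≃g G) (x y : V) (p : ℕ → V) :
    p ∈ Geo G (φ x) (φ y) ↔ ∃ q ∈ Geo G x y, (fun i => φ (q i)) = p := by
  constructor
  · rintro ⟨h1, h2, h3⟩
    rw [dist_iso hG] at h2 h3
    refine ⟨fun i => φ.symm (p i), ⟨?_, ?_, ?_⟩, ?_⟩
    · change φ.symm (p 0) = x
      rw [h1, RelIso.symm_apply_apply]
    · intro i hi
      exact φ.symm.map_rel_iff.mpr (h2 i hi)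
    · intro i hi
      change φ.symm (p i) = y
      rw [h3 i hi, RelIso.symm_apply_apply]
    · funext i
      exact RelIso.apply_symm_apply _ _
  · rintro ⟨q, ⟨h1, h2, h3⟩, rfl⟩
    refine ⟨by change φ (q 0) = _; rw [h1], ?_, ?_⟩
    · intro i hi
      rw [dist_iso hG] at hi
      exact φ.map_rel_iff.mpr (h2 i hi)
    · intro i hi
      rw [dist_iso hG] at hi
      change φ (q i) = _
      rw [h3 i hi]

/-- a geodesic which leaves `K` -/
theorem geo_cross {x y : V} {K : Finset V} (hx : x ∈ K) (hy : y ∉ K) {p : ℕ → V}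
    (hp : p ∈ Geo G x y) {r : ℕ} (hr : G.dist x y ≤ r) :
    ∃ k ∈ Finset.Icc 1 r, p k ∈ outerBd G K := by
  classical
  obtain ⟨h1, h2, h3⟩ := hp
  have hex : ∃ k, p k ∉ K := ⟨G.dist x y, by rw [h3 _ le_rfl]; exact hy⟩
  have hk1 := Nat.find_spec hex
  have hk2 : ∀ j, j < Nat.find hex → p j ∈ K := by
    intro j hj
    have := Nat.find_min hex hj
    push Not at this
    exact this
  have hk3 : Nat.find hex ≤ G.dist x y := Nat.find_min' hex (by rw [h3 _ le_rfl]; exact hy)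
  have hk4 : Nat.find hex ≠ 0 := by
    intro h0
    rw [h0, h1] at hk1
    exact hk1 hx
  obtain ⟨j, hj⟩ := Nat.exists_eq_succ_of_ne_zero hk4
  rw [Nat.succ_eq_add_one] at hj
  refine ⟨Nat.find hex, Finset.mem_Icc.mpr ⟨by omega, by omega⟩, hk1, p j, hk2 j (by omega), ?_⟩
  rw [hj]
  exact h2 j (by omega)

section

open Classical in
/-- the number of passages of `p` through `z` at the times `1, …, r` -/
noncomputable def cnt (r : ℕ) (p : ℕ → V) (z : V) : ℝ≥0∞ :=
  ∑ k ∈ Finset.Icc 1 r, if p k = z then 1 else 0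

theorem cnt_sum (r : ℕ) (p : ℕ → V) : ∑' z, cnt r p z = r := by
  classical
  unfold cnt
  rw [Summable.tsum_finsetSum (fun _ _ => ENNReal.summable)]
  have h : ∀ k ∈ Finset.Icc 1 r, (∑' z, if p k = z then (1 : ℝ≥0∞) else 0) = 1 := by
    intro k _
    rw [tsum_eq_single (p k) (fun z hz => if_neg (fun h => hz h.symm)), if_pos rfl]
  rw [Finset.sum_congr rfl h, Finset.sum_const, Nat.card_Icc, nsmul_eq_mul, mul_one]
  simp

open Classical in
/-- the geodesics as a finset -/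
noncomputable def GF (G : SimpleGraph V) (x y : V) : Finset (ℕ → V) :=
  if h : (Geo G x y).Finite then h.toFinset else ∅

theorem mem_GF (hG : G.Connected) (hb : ∀ (o : V) (n : ℕ), (ball G o n).Finite) (x y : V)
    (p : ℕ → V) : p ∈ GF G x y ↔ p ∈ Geo G x y := by
  rw [GF, dif_pos (geo_finite hG hb x y), Set.Finite.mem_toFinset]

theorem GF_card (hG : G.Connected) (hb : ∀ (o : V) (n : ℕ), (ball G o n).Finite) (x y : V) :
    ((GF G x y).card : ℝ≥0∞) ≠ 0 := by
  obtain ⟨p, hp⟩ := geo_nonempty hG x y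
  have : (GF G x y).card ≠ 0 := Finset.card_ne_zero_of_mem ((mem_GF hG hb x y p).mpr hp)
  exact_mod_cast this

open Classical in
/-- the mass sent from `x` to `z` because of `y` -/
noncomputable def TT (G : SimpleGraph V) (g : ℝ≥0∞) (r : ℕ) (x y z : V) : ℝ≥0∞ :=
  if G.dist x y ≤ r then g * ((GF G x y).card : ℝ≥0∞)⁻¹ * ∑ p ∈ GF G x y, cnt r p z else 0

/-- the mass sent from `x` to `z` -/
noncomputable def ff (G : SimpleGraph V) (g : ℝ≥0∞) (r : ℕ) (x z : V) : ℝ≥0∞ :=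
  ∑' y, TT G g r x y z

theorem TT_iso (hG : G.Connected) (hb : ∀ (o : V) (n : ℕ), (ball G o n).Finite) (g : ℝ≥0∞) (r : ℕ)
    (φ : G ≃g G) (x y z : V) : TT G g r (φ x) (φ y) (φ z) = TT G g r x y z := by
  classical
  have hinj : Function.Injective (fun (q : ℕ → V) (i : ℕ) => φ (q i)) := by
    intro q q' h
    funext i
    exact φ.injective (congrFun h i)
  have himg : GF G (φ x) (φ y) = (GF G x y).image (fun (q : ℕ → V) (i : ℕ) => φ (q i)) := by
    ext p
    rw [mem_GF hG hb, geo_image hG, Finset.mem_image]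
    constructor
    · rintro ⟨q, hq, h⟩
      exact ⟨q, (mem_GF hG hb x y q).mpr hq, h⟩
    · rintro ⟨q, hq, h⟩
      exact ⟨q, (mem_GF hG hb x y q).mp hq, h⟩
  have hcnt : ∀ q : ℕ → V, cnt r (fun i => φ (q i)) (φ z) = cnt r q z := by
    intro q
    unfold cnt
    refine Finset.sum_congr rfl fun k _ => ?_
    by_cases h : q k = z
    · rw [if_pos h, if_pos (congrArg φ h)]
    · rw [if_neg h, if_neg (fun h2 => h (φ.injective h2))]
  unfold TT
  rw [dist_iso hG, himg, Finset.card_image_of_injective _ hinj,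
    Finset.sum_image (fun _ _ _ _ h => hinj h)]
  simp only [hcnt]

theorem ff_iso (hG : G.Connected) (hb : ∀ (o : V) (n : ℕ), (ball G o n).Finite) (g : ℝ≥0∞) (r : ℕ)
    (φ : G ≃g G) (x z : V) : ff G g r (φ x) (φ z) = ff G g r x z := by
  unfold ff
  rw [← φ.toEquiv.tsum_eq]
  exact tsum_congr fun y => TT_iso hG hb g r φ x y z

theorem TT_zero (hG : G.Connected) (hb : ∀ (o : V) (n : ℕ), (ball G o n).Finite) (g : ℝ≥0∞) (r : ℕ)
    {x z : V} (hxz : r < G.dist x z) (y : V) : TT G g r x y z = 0 := by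
  unfold TT
  split_ifs with h
  · have h2 : ∑ p ∈ GF G x y, cnt r p z = 0 := by
      refine Finset.sum_eq_zero fun p hp => ?_
      unfold cnt
      refine Finset.sum_eq_zero fun k _ => ?_
      rw [if_neg]
      intro h3
      have h4 := dist_geo hG ((mem_GF hG hb x y p).mp hp) k
      rw [h3] at h4
      omega
    rw [h2, mul_zero]
  · rfl

theorem ff_zero (hG : G.Connected) (hb : ∀ (o : V) (n : ℕ), (ball G o n).Finite) (g : ℝ≥0∞) (r : ℕ)
    {x z : V} (hxz : r < G.dist x z) : ff G g r x z = 0 := by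
  unfold ff
  rw [ENNReal.tsum_eq_zero]
  exact TT_zero hG hb g r hxz

theorem TT_sum (hG : G.Connected) (hb : ∀ (o : V) (n : ℕ), (ball G o n).Finite) (g : ℝ≥0∞) (r : ℕ)
    (x y : V) (h : G.dist x y ≤ r) : ∑' z, TT G g r x y z = g * r := by
  unfold TT
  simp only [if_pos h]
  rw [ENNReal.tsum_mul_left, Summable.tsum_finsetSum (fun _ _ => ENNReal.summable),
    Finset.sum_congr rfl (fun p _ => cnt_sum r p), Finset.sum_const, nsmul_eq_mul, mul_assoc,
    ← mul_assoc (_⁻¹ : ℝ≥0∞), ENNReal.inv_mul_cancel (GF_card hG hb x y)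
      (ENNReal.natCast_ne_top _), one_mul]

theorem ff_sum (hG : G.Connected) (hb : ∀ (o : V) (n : ℕ), (ball G o n).Finite) (r n : ℕ)
    (x : V) (hn : (ball G x r).ncard = n) (hn0 : n ≠ 0) :
    ∑' z, ff G (n : ℝ≥0∞)⁻¹ r x z = r := by
  classical
  unfold ff
  rw [ENNReal.tsum_comm]
  have h1 : ∀ y, y ∉ (hb x r).toFinset → ∑' z, TT G (n : ℝ≥0∞)⁻¹ r x y z = 0 := by
    intro y hy
    rw [ENNReal.tsum_eq_zero]
    intro z
    unfold TT
    rw [if_neg]
    intro h
    exact hy ((Set.Finite.mem_toFinset _).mpr h)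
  rw [tsum_eq_sum (s := (hb x r).toFinset) (fun y hy => h1 y hy)]
  have h2 : ∀ y ∈ (hb x r).toFinset, ∑' z, TT G (n : ℝ≥0∞)⁻¹ r x y z = (n : ℝ≥0∞)⁻¹ * r := by
    intro y hy
    exact TT_sum hG hb _ r x y ((Set.Finite.mem_toFinset (hb x r)).mp hy)
  rw [Finset.sum_congr rfl h2, Finset.sum_const, ← Set.ncard_eq_toFinset_card _ (hb x r), hn,
    nsmul_eq_mul, ← mul_assoc, ENNReal.mul_inv_cancel (by exact_mod_cast hn0)
      (ENNReal.natCast_ne_top _), one_mul]

theorem ff_lower (hG : G.Connected) (hb : ∀ (o : V) (n : ℕ), (ball G o n).Finite) (r n : ℕ)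
    (x : V) (hn : (ball G x r).ncard = n) (hn0 : n ≠ 0) (K D : Finset V) (hK : 2 * K.card ≤ n)
    (hx : x ∈ K) (hD : ∀ z, z ∈ outerBd G K → z ∈ D) :
    1 ≤ 2 * ∑ z ∈ D, ff G (n : ℝ≥0∞)⁻¹ r x z := by
  classical
  have hnn : (n : ℝ≥0∞) ≠ 0 := by exact_mod_cast hn0
  have hcard : (hb x r).toFinset.card = n := by
    rw [← Set.ncard_eq_toFinset_card _ (hb x r), hn]
  have h1 : ∑ z ∈ D, ff G (n : ℝ≥0∞)⁻¹ r x z =
      ∑' y, ∑ z ∈ D, TT G (n : ℝ≥0∞)⁻¹ r x y z := by
    unfold ff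
    rw [Summable.tsum_finsetSum (fun _ _ => ENNReal.summable)]
  have h2 : ∀ y ∈ (hb x r).toFinset \ K, (n : ℝ≥0∞)⁻¹ ≤ ∑ z ∈ D, TT G (n : ℝ≥0∞)⁻¹ r x y z := by
    intro y hy
    obtain ⟨hy1, hy2⟩ := Finset.mem_sdiff.mp hy
    have hy3 : G.dist x y ≤ r := (Set.Finite.mem_toFinset (hb x r)).mp hy1
    unfold TT
    simp only [if_pos hy3]
    rw [← Finset.mul_sum, Finset.sum_comm]
    have h3 : ∀ p ∈ GF G x y, (1 : ℝ≥0∞) ≤ ∑ z ∈ D, cnt r p z := by
      intro p hp
      obtain ⟨k, hk, hz⟩ := geo_cross hx hy2 ((mem_GF hG hb x y p).mp hp) hy3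
      calc (1 : ℝ≥0∞) = if p k = p k then 1 else 0 := (if_pos rfl).symm
        _ ≤ cnt r p (p k) :=
          Finset.single_le_sum (f := fun j => if p j = p k then (1 : ℝ≥0∞) else 0)
            (fun _ _ => zero_le) hk
        _ ≤ _ := Finset.single_le_sum (f := fun z => cnt r p z) (fun _ _ => zero_le) (hD _ hz)
    calc (n : ℝ≥0∞)⁻¹ = (n : ℝ≥0∞)⁻¹ * ((GF G x y).card : ℝ≥0∞)⁻¹ * (GF G x y).card := by
          rw [mul_assoc, ENNReal.inv_mul_cancel (GF_card hG hb x y) (ENNReal.natCast_ne_top _),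
            mul_one]
      _ = (n : ℝ≥0∞)⁻¹ * ((GF G x y).card : ℝ≥0∞)⁻¹ * ∑ p ∈ GF G x y, 1 := by
          rw [Finset.sum_const, nsmul_eq_mul, mul_one]
      _ ≤ _ := by
          gcongr with p hp
          exact h3 p hp
  have h4 : (((hb x r).toFinset \ K).card : ℝ≥0∞) * (n : ℝ≥0∞)⁻¹ ≤
      ∑ z ∈ D, ff G (n : ℝ≥0∞)⁻¹ r x z := by
    rw [h1]
    calc (((hb x r).toFinset \ K).card : ℝ≥0∞) * (n : ℝ≥0∞)⁻¹
        = ∑ y ∈ (hb x r).toFinset \ K, (n : ℝ≥0∞)⁻¹ := by rw [Finset.sum_const, nsmul_eq_mul]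
      _ ≤ ∑ y ∈ (hb x r).toFinset \ K, ∑ z ∈ D, TT G (n : ℝ≥0∞)⁻¹ r x y z :=
          Finset.sum_le_sum h2
      _ ≤ _ := ENNReal.sum_le_tsum _
  have h5 : n ≤ 2 * ((hb x r).toFinset \ K).card := by
    have := Finset.le_card_sdiff K (hb x r).toFinset
    omega
  calc (1 : ℝ≥0∞) = (n : ℝ≥0∞) * (n : ℝ≥0∞)⁻¹ :=
        (ENNReal.mul_inv_cancel hnn (ENNReal.natCast_ne_top _)).symm
    _ ≤ (2 * ((hb x r).toFinset \ K).card : ℝ≥0∞) * (n : ℝ≥0∞)⁻¹ := by
        gcongr
        exact_mod_cast h5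
    _ = 2 * ((((hb x r).toFinset \ K).card : ℝ≥0∞) * (n : ℝ≥0∞)⁻¹) := by ring
    _ ≤ _ := by gcongr

theorem outerBd_finite (G : SimpleGraph V) [G.LocallyFinite] (K : Finset V) :
    (outerBd G K).Finite := by
  classical
  apply (K.biUnion fun x => G.neighborFinset x).finite_toSet.subset
  rintro y ⟨_, x, hx, hxy⟩
  rw [Finset.mem_coe, Finset.mem_biUnion]
  exact ⟨x, hx, (G.mem_neighborFinset x y).mpr hxy⟩

end

end Pool.Agent.H671.FRG

namespace Pool.Agent.H671

open Pool.Agent.H979.FR Pool.Agent.H671.FRG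

theorem fr_geo (h : S_MTP) (hB : S_BALL) : S_GEO := by
  intro V _ G _ hG hT hA o K r hK
  classical
  obtain ⟨hb, -, hc⟩ := hB V G hG
  set n := (ball G o r).ncard with hn
  have hn0 : n ≠ 0 := by
    rw [hn, Ne, Set.ncard_eq_zero (hb o r)]
    intro h0
    have : o ∈ ball G o r := by
      change G.dist o o ≤ r
      rw [SimpleGraph.dist_self]
      exact Nat.zero_le _
    rw [h0] at this
    exact this
  have hnx : ∀ x, (ball G x r).ncard = n := fun x => hc hT x o r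
  have hsum : ∀ x, ∑' z, ff G (n : ℝ≥0∞)⁻¹ r x z = r := fun x => ff_sum hG hb r n x (hnx x) hn0
  have hmtp := h V G hG hT hA r (ff G (n : ℝ≥0∞)⁻¹ r) (by
    intro x y hxy
    have h1 := ENNReal.le_tsum (f := fun z => ff G (n : ℝ≥0∞)⁻¹ r x z) y
    rw [hsum x, hxy] at h1
    exact ENNReal.natCast_ne_top r (top_le_iff.mp h1)) (fun φ x y => ff_iso hG hb _ r φ x y)
    (fun x y hxy => ff_zero hG hb _ r hxy)
  have hfin := outerBd_finite G K
  have hD : ∀ z, z ∈ outerBd G K → z ∈ hfin.toFinset := fun z hz =>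
    (Set.Finite.mem_toFinset _).mpr hz
  have main : (K.card : ℝ≥0∞) ≤ 2 * r * hfin.toFinset.card := by
    calc (K.card : ℝ≥0∞) = ∑ x ∈ K, 1 := by rw [Finset.sum_const, nsmul_eq_mul, mul_one]
      _ ≤ ∑ x ∈ K, 2 * ∑ z ∈ hfin.toFinset, ff G (n : ℝ≥0∞)⁻¹ r x z :=
          Finset.sum_le_sum fun x hx =>
            ff_lower hG hb r n x (hnx x) hn0 K _ hK hx hD
      _ = 2 * ∑ z ∈ hfin.toFinset, ∑ x ∈ K, ff G (n : ℝ≥0∞)⁻¹ r x z := by
          rw [← Finset.mul_sum, Finset.sum_comm]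
      _ ≤ 2 * ∑ z ∈ hfin.toFinset, (r : ℝ≥0∞) := by
          gcongr with z _
          calc ∑ x ∈ K, ff G (n : ℝ≥0∞)⁻¹ r x z ≤ ∑' x, ff G (n : ℝ≥0∞)⁻¹ r x z :=
                ENNReal.sum_le_tsum _
            _ ≤ ∑' y, ff G (n : ℝ≥0∞)⁻¹ r z y := hmtp z
            _ = r := hsum z
      _ = 2 * r * hfin.toFinset.card := by
          rw [Finset.sum_const, nsmul_eq_mul]
          ring
  rw [Set.ncard_eq_toFinset_card _ hfin]
  exact_mod_cast main

end Pool.Agent.H671
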