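import Pool.Agent.H867.FT.Gen

set_option autoImplicit false

open scoped nonZeroDivisors

namespace Pool.Agent.H671.FT867PSN

/-- complete integral closedness, in terms of divisibility -/
def CI (A : Type) [CommRing A] : Prop :=
  ∀ x y c : A, c ≠ 0 → x ≠ 0 → (∀ n : ℕ, x ^ n ∣ c * y ^ n) → x ∣ y

theorem CI.closed {A : Type} [CommRing A] [IsDomain A] (h : CI A) : IsIntegrallyClosed A := by
  rw [isIntegrallyClosed_iff (FractionRing A)]
  intro s hs
  obtain ⟨r, hr, hr'⟩ := hs.isAlmostIntegral
  obtain ⟨y, x, hx, rfl⟩ := IsFractionRing.div_surjective (A := A) s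
  have hx0 : x ≠ 0 := nonZeroDivisors.ne_zero hx
  have hx0' : algebraMap A (FractionRing A) x ≠ 0 := by
    simpa using hx0
  have hd : x ∣ y := by
    refine h x y r (nonZeroDivisors.ne_zero hr) hx0 fun n => ?_
    obtain ⟨q, hq⟩ := hr' n
    refine ⟨q, ?_⟩
    apply IsFractionRing.injective A (FractionRing A)
    rw [map_mul, map_mul, map_pow, map_pow, hq, Algebra.smul_def, div_pow]
    field_simp
  obtain ⟨z, hz⟩ := hd
  refine ⟨z, ?_⟩
  rw [hz, map_mul]
  field_simp

theorem CI.equiv {A B : Type} [CommRing A] [CommRing B] (e : A ≃+* B) (h : CI B) : CI A := by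
  intro x y c hc hx hd
  have := h (e x) (e y) (e c) (by simpa using hc) (by simpa using hx) fun n => by
    rw [← map_pow, ← map_pow, ← map_mul]
    exact map_dvd e (hd n)
  have h2 := map_dvd e.symm this
  simpa using h2

theorem CI.field (k : Type) [Field k] : CI k := fun _ _ _ _ hx _ => (isUnit_iff_ne_zero.mpr hx).dvd

/-- subtracting a multiple of `x` -/
theorem sub_mul {A : Type} [CommRing A] {x y c : A} (h : ∀ n : ℕ, x ^ n ∣ c * y ^ n) (w : A) (n : ℕ) :
    x ^ n ∣ c * (y - x * w) ^ n := by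
  rw [sub_eq_add_neg, add_pow, Finset.mul_sum]
  refine Finset.dvd_sum fun i hi => ?_
  have hi' : i ≤ n := Nat.lt_succ_iff.mp (Finset.mem_range.mp hi)
  have h1 : x ^ n = x ^ i * x ^ (n - i) := by rw [← pow_add]; congr 1; omega
  have h2 : c * (y ^ i * (-(x * w)) ^ (n - i) * (n.choose i : A)) =
      (c * y ^ i) * (x ^ (n - i)) * ((-w) ^ (n - i) * (n.choose i : A)) := by
    have : -(x * w) = x * (-w) := by ring
    rw [this, mul_pow]; ring
  rw [h1, h2]
  exact Dvd.dvd.mul_right (mul_dvd_mul (h i) dvd_rfl) _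

open PowerSeries in
theorem CI.power {A : Type} [CommRing A] [IsDomain A] (h : CI A) : CI (PowerSeries A) := by
  have hXp : Prime (X : PowerSeries A) := X_prime
  have fac : ∀ f : PowerSeries A, f ≠ 0 → ∃ (s : ℕ) (g : PowerSeries A), f = X ^ s * g ∧ ¬ X ∣ g := by
    intro f hf
    refine ⟨f.order.toNat, divXPowOrder f, (X_pow_order_mul_divXPowOrder).symm, ?_⟩
    rw [X_dvd_iff, constantCoeff_divXPowOrder_eq_zero_iff]
    exact hf
  -- the case of a denominator with nonzero constant coefficient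
  have key : ∀ x y c : PowerSeries A, c ≠ 0 → ¬ X ∣ x → (∀ n : ℕ, x ^ n ∣ c * y ^ n) → x ∣ y := by
    intro x y c hc hx hd
    obtain ⟨s, c', rfl, hc'⟩ := fac c hc
    have hX : ∀ (n m : ℕ) (q : PowerSeries A), X ^ m ∣ x ^ n * q → X ^ m ∣ q := by
      intro n m q hq
      exact hXp.pow_dvd_of_dvd_mul_left m (fun h' => hx (hXp.dvd_of_dvd_pow h')) hq
    -- one more coefficient
    have step : ∀ N : ℕ, ∃ z : PowerSeries A, X ^ N ∣ y - x * z := by
      intro N
      induction N with
      | zero => exact ⟨0, by simp⟩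
      | succ N ih =>
        obtain ⟨z, y', hz⟩ := ih
        have h1 : ∀ n : ℕ, (constantCoeff x) ^ n ∣ (constantCoeff c') * (constantCoeff y') ^ n := by
          intro n
          have h2 := sub_mul hd z n
          rw [hz, mul_pow] at h2
          obtain ⟨q, hq⟩ := h2
          have h3 : X ^ (s + N * n) ∣ x ^ n * q := by
            rw [← hq, pow_add, pow_mul]
            exact ⟨c' * y' ^ n, by ring⟩
          obtain ⟨q', hq'⟩ := hX n _ q h3
          have h4 : c' * y' ^ n = x ^ n * q' := by
            have hne : (X : PowerSeries A) ^ (s + N * n) ≠ 0 := pow_ne_zero _ hXp.ne_zero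
            apply mul_left_cancel₀ hne
            calc X ^ (s + N * n) * (c' * y' ^ n) = X ^ s * c' * ((X ^ N) ^ n * y' ^ n) := by
                  rw [pow_add, pow_mul]; ring
              _ = x ^ n * q := hq
              _ = X ^ (s + N * n) * (x ^ n * q') := by rw [hq']; ring
          have h5 := congrArg (constantCoeff (R := A)) h4
          rw [map_mul, map_mul, map_pow, map_pow] at h5
          exact ⟨constantCoeff q', h5⟩
        have hx0 : constantCoeff x ≠ 0 := fun h0 => hx (X_dvd_iff.mpr h0)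
        have hc0 : constantCoeff c' ≠ 0 := fun h0 => hc' (X_dvd_iff.mpr h0)
        obtain ⟨t, ht⟩ := h _ _ _ hc0 hx0 h1
        refine ⟨z + X ^ N * C t, ?_⟩
        have h6 : y - x * (z + X ^ N * C t) = X ^ N * (y' - x * C t) := by
          have : y - x * (z + X ^ N * C t) = (y - x * z) - X ^ N * (x * C t) := by ring
          rw [this, hz]; ring
        rw [h6, pow_succ]
        refine mul_dvd_mul dvd_rfl (X_dvd_iff.mpr ?_)
        rw [map_sub, map_mul, ht, constantCoeff_C, sub_self]
    choose z hz using step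
    have huniq : ∀ N M : ℕ, N ≤ M → X ^ N ∣ z M - z N := by
      intro N M hNM
      apply hX 1 N
      rw [pow_one]
      have h1 : x * (z M - z N) = (y - x * z N) - (y - x * z M) := by ring
      rw [h1]
      exact dvd_sub (hz N) ((pow_dvd_pow _ hNM).trans (hz M))
    let w : PowerSeries A := PowerSeries.mk fun j => coeff j (z (j + 1))
    have hw : ∀ M : ℕ, X ^ M ∣ w - z M := by
      intro M
      rw [X_pow_dvd_iff]
      intro j hj
      have h1 := X_pow_dvd_iff.mp (huniq (j + 1) M hj) j (Nat.lt_succ_self j)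
      rw [map_sub] at h1 ⊢
      rw [coeff_mk]
      linear_combination -h1
    refine ⟨w, ?_⟩
    rw [← sub_eq_zero]
    have h2 : ∀ M : ℕ, X ^ M ∣ y - x * w := by
      intro M
      have h3 : y - x * w = (y - x * z M) - x * (w - z M) := by ring
      rw [h3]
      exact dvd_sub (hz M) ((hw M).mul_left _)
    ext j
    rw [X_pow_dvd_iff.mp (h2 (j + 1)) j (Nat.lt_succ_self j), map_zero]
  intro x y c hc hx hd
  obtain ⟨p, x', rfl, hx'⟩ := fac x hx
  by_cases hy : y = 0
  · rw [hy]; exact dvd_zero _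
  obtain ⟨r, y', rfl, hy'⟩ := fac y hy
  obtain ⟨s, c', rfl, hc'⟩ := fac c hc
  have hpr : p ≤ r := by
    by_contra hlt
    push Not at hlt
    -- `p n ≤ s + r n` for all `n`
    have h1 : ∀ n : ℕ, p * n ≤ s + r * n := by
      intro n
      by_contra hlt2
      push Not at hlt2
      have h2 : X ^ (p * n) ∣ X ^ (s + r * n) * (c' * y' ^ n) := by
        refine Dvd.dvd.trans ?_ (dvd_of_eq ?_) (b := X ^ s * c' * (X ^ r * y') ^ n)
        · refine Dvd.dvd.trans ?_ (hd n)
          rw [mul_pow, ← pow_mul]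
          exact dvd_mul_right _ _
        · rw [mul_pow, ← pow_mul, pow_add]; ring
      have h3 : X ^ (s + r * n + 1) ∣ X ^ (s + r * n) * (c' * y' ^ n) := (pow_dvd_pow _ hlt2).trans h2
      rw [pow_succ] at h3
      have h4 := (mul_dvd_mul_iff_left (pow_ne_zero (s + r * n) hXp.ne_zero)).mp h3
      rcases hXp.dvd_or_dvd h4 with h5 | h5
      · exact hc' h5
      · exact hy' (hXp.dvd_of_dvd_pow h5)
    have h2 := h1 (s + 1)
    nlinarith
  have h1 : x' ∣ X ^ (r - p) * y' := by
    refine key x' _ (X ^ s * c') hc hx' fun n => ?_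
    have h2 := hd n
    have h3 : (X : PowerSeries A) ^ r = X ^ p * X ^ (r - p) := by rw [← pow_add]; congr 1; omega
    have h4 : X ^ s * c' * (X ^ r * y') ^ n =
        (X ^ p) ^ n * (X ^ s * c' * (X ^ (r - p) * y') ^ n) := by
      rw [h3, mul_assoc (X ^ p), mul_pow (X ^ p)]
      ring
    rw [h4, mul_pow] at h2
    exact (mul_dvd_mul_iff_left (pow_ne_zero n (pow_ne_zero p hXp.ne_zero))).mp h2
  have h3 : (X : PowerSeries A) ^ r = X ^ p * X ^ (r - p) := by rw [← pow_add]; congr 1; omega
  rw [h3, mul_assoc]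
  exact mul_dvd_mul dvd_rfl h1

instance dom (k : Type) [Field k] (d : ℕ) : IsDomain (MvPowerSeries (Fin d) k) :=
  NoZeroDivisors.to_isDomain _

theorem ci_mv (k : Type) [Field k] : ∀ d : ℕ, CI (MvPowerSeries (Fin d) k) := by
  intro d
  induction d with
  | zero => exact CI.equiv (MvPowerSeries.isEmptyEquiv (Fin 0) k).toRingEquiv (CI.field k)
  | succ d ih => exact CI.equiv (MvPowerSeries.finSuccEquiv k d).toRingEquiv ih.power

theorem psn : Pool.Agent.H867.FT.S_PSN := fun k _ d => (ci_mv k d).closed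

end Pool.Agent.H671.FT867PSN

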