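import Pool.Agent.H691.Geo.Defs
import Pool.Graph.R_seed8.W481.TA_Q1

/-!
# Max-min area triangulations: integer and rational points (project MM, helper691; by helper671)
-/

set_option autoImplicit false

namespace Pool.Agent.H691.MM.Q

open Pool.Agent.W982.TA Pool.Agent.W982.TA.Q

/-- there is a triangulation of `S` all of whose triangles have area at least `A` -/
def MaxMinArea (S : Finset (ℚ × ℚ)) (A : ℚ) : Prop :=
  ∃ T, Pool.Agent.W982.TA.Q.IsTriangulation S T ∧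
    ∀ a b c, Pool.Agent.W982.TA.Q.IsTriangle S T a b c → A ≤ Pool.Agent.W982.TA.Q.area a b c

theorem bound_iff' (S : Finset Pt) (A : ℚ) (T : Set (Sym2 Pt)) (T' : Set (Sym2 (ℚ × ℚ)))
    (h1 : ∀ p q, s(p, q) ∈ T ↔ s(qt p, qt q) ∈ T')
    (h2 : ∀ p' q', s(p', q') ∈ T' → ∃ p q, p' = qt p ∧ q' = qt q) :
    (∀ a b c, IsTri S T a b c → A ≤ ((|dt a b c| : ℤ) : ℚ) / 2) ↔
      ∀ a b c, Pool.Agent.W982.TA.Q.IsTriangle (S.image qt) T' a b c →
        A ≤ Pool.Agent.W982.TA.Q.area a b c := by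
  constructor
  · intro h a' b' c' ht
    obtain ⟨a, b, rfl, rfl⟩ := h2 _ _ ht.1
    obtain ⟨b₂, c, hb, rfl⟩ := h2 _ _ ht.2.1
    rw [area_qt]
    exact h a b c ((isTri_iff S T T' h1 a b c).2 ht)
  · intro h a b c ht
    rw [← area_qt]
    exact h _ _ _ ((isTri_iff S T T' h1 a b c).1 ht)

/-- **GQ** -/
theorem q2 : ∀ (S : Finset Pt) (A : ℚ),
    Pool.Agent.H691.Geo.MaxMinArea S A ↔ MaxMinArea (S.image qt) A := by
  intro S A
  constructor
  · rintro ⟨T, hT, hA⟩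
    have h1 : ∀ p q, s(p, q) ∈ T ↔ s(qt p, qt q) ∈ Sym2.map qt '' T := by
      intro p q
      rw [← Sym2.map_mk qt p q]
      exact ((Sym2.map.injective qt_inj).mem_set_image).symm
    have h2 : ∀ p' q', s(p', q') ∈ Sym2.map qt '' T → ∃ p q, p' = qt p ∧ q' = qt q := by
      rintro p' q' ⟨z, hz, he⟩
      induction z with
      | _ a b =>
        rw [Sym2.map_mk, Sym2.eq_iff] at he
        rcases he with ⟨h3, h4⟩ | ⟨h3, h4⟩
        · exact ⟨a, b, h3.symm, h4.symm⟩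
        · exact ⟨b, a, h4.symm, h3.symm⟩
    exact ⟨_, (tri_iff S T _ h1 h2).1 hT, (bound_iff' S A T _ h1 h2).1 hA⟩
  · rintro ⟨T', hT, hA⟩
    have h1 : ∀ p q, s(p, q) ∈ Sym2.map qt ⁻¹' T' ↔ s(qt p, qt q) ∈ T' := by
      intro p q
      rfl
    have h2 : ∀ p' q', s(p', q') ∈ T' → ∃ p q, p' = qt p ∧ q' = qt q := by
      intro p' q' hm
      exact isSeg_ex S _ _ (hT.seg _ _ hm)
    exact ⟨_, (tri_iff S _ T' h1 h2).2 hT, (bound_iff' S A _ T' h1 h2).2 hA⟩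

end Pool.Agent.H691.MM.Q
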