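import Pool.Agent.H840.MX.Stm
import Mathlib.RingTheory.Nullstellensatz
import Mathlib.RingTheory.Polynomial.UniqueFactorization
import Mathlib.Algebra.MvPolynomial.Division

/-!
# A linear form without a common zero with `F` and `g` is a nonzerodivisor modulo `(F, g)`
-/

set_option autoImplicit false

namespace Pool.Agent.H671.MXD4

open MvPolynomial Pool.Agent.T2H40.MI

/-- Restriction to the plane `r ⬝ᵥ q = 0`: eliminate the variable `X k`. -/
noncomputable def sg (r : Fin 3 → ℂ) (k : Fin 3) : S →ₐ[ℂ] S :=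
  aeval (fun i => if i = k then X k - C (r k)⁻¹ * lin r else X i)

theorem sg_X (r : Fin 3 → ℂ) (k i : Fin 3) :
    sg r k (X i) = X i - (if i = k then C (r k)⁻¹ * lin r else 0) := by
  rw [sg, aeval_X]
  split_ifs with h
  · rw [h]
  · rw [sub_zero]

theorem sg_lin (r : Fin 3 → ℂ) (k : Fin 3) (hk : r k ≠ 0) : sg r k (lin r) = 0 := by
  have h1 : sg r k (lin r) = ∑ i, C (r i) * sg r k (X i) := by
    rw [lin, map_sum]
    refine Finset.sum_congr rfl fun i _ => ?_
    rw [map_mul]
    congr 1
    rw [sg, aeval_C]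
    rfl
  have h2 : ∑ i, C (r i) * (if i = k then C (r k)⁻¹ * lin r else 0) = lin r := by
    rw [Finset.sum_eq_single k]
    · rw [if_pos rfl, ← mul_assoc, ← C_mul, mul_inv_cancel₀ hk, C_1, one_mul]
    · intro i _ hi
      rw [if_neg hi, mul_zero]
    · intro h
      exact absurd (Finset.mem_univ k) h
  rw [h1]
  calc ∑ i, C (r i) * sg r k (X i)
      = ∑ i, (C (r i) * X i - C (r i) * (if i = k then C (r k)⁻¹ * lin r else 0)) := by
        refine Finset.sum_congr rfl fun i _ => ?_
        rw [sg_X, mul_sub]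
    _ = lin r - lin r := by
        rw [Finset.sum_sub_distrib, h2]
        rfl
    _ = 0 := sub_self _

theorem dvd_sub_sg (r : Fin 3 → ℂ) (k : Fin 3) (f : S) : lin r ∣ f - sg r k f := by
  induction f using MvPolynomial.induction_on with
  | C c =>
    have : sg r k (C c) = C c := by
      rw [sg, aeval_C]
      rfl
    rw [this, sub_self]
    exact dvd_zero _
  | add p q hp hq =>
    rw [map_add, add_sub_add_comm]
    exact dvd_add hp hq
  | mul_X p i hp =>
    have : p * X i - sg r k (p * X i) =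
        (p - sg r k p) * X i + sg r k p * (X i - sg r k (X i)) := by
      rw [map_mul]
      ring
    rw [this]
    refine dvd_add (dvd_mul_of_dvd_left hp _) (dvd_mul_of_dvd_right ?_ _)
    rw [sg_X, sub_sub_cancel]
    split_ifs
    · exact dvd_mul_left _ _
    · exact dvd_zero _

theorem eval_sg (r : Fin 3 → ℂ) (k : Fin 3) (q : Fin 3 → ℂ) (f : S) :
    eval q (sg r k f) = eval (fun i => eval q (sg r k (X i))) f := by
  induction f using MvPolynomial.induction_on with
  | C c =>
    have : sg r k (C c) = C c := by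
      rw [sg, aeval_C]
      rfl
    rw [this, eval_C, eval_C]
  | add p q hp hq => simp only [map_add, hp, hq]
  | mul_X p i hp => simp only [map_mul, hp, eval_X]

theorem no_common (F g : S) (r : Fin 3 → ℂ) (k : Fin 3) (hk : r k ≠ 0)
    (hz : ∀ q : Fin 3 → ℂ, q ≠ 0 → eval q F = 0 → eval q g = 0 → r ⬝ᵥ q ≠ 0)
    (p : S) (hp : Prime p) (hF : p ∣ sg r k F) (hg : p ∣ sg r k g) : False := by
  have key : ∀ q : Fin 3 → ℂ, eval q p = 0 → ∀ i, i ≠ k → q i = 0 := by
    intro q hq i hi
    obtain ⟨u, hu⟩ := hF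
    obtain ⟨w, hw⟩ := hg
    have e1 : eval (fun i => eval q (sg r k (X i))) F = 0 := by
      rw [← eval_sg, hu, map_mul, hq, zero_mul]
    have e2 : eval (fun i => eval q (sg r k (X i))) g = 0 := by
      rw [← eval_sg, hw, map_mul, hq, zero_mul]
    have e3 : r ⬝ᵥ (fun i => eval q (sg r k (X i))) = 0 := by
      rw [← eval_lin, ← eval_sg, sg_lin r k hk, map_zero]
    by_contra hne
    refine hz _ ?_ e1 e2 e3
    intro h0
    apply hne
    have := congrFun h0 i
    simp only [Pi.zero_apply] at this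
    rw [sg_X, if_neg hi, sub_zero, eval_X] at this
    exact this
  have dv : ∀ i, i ≠ k → p ∣ X i := by
    intro i hi
    have h1 : (X i : S) ∈ vanishingIdeal ℂ (zeroLocus ℂ (Ideal.span {p})) := by
      rw [mem_vanishingIdeal_iff]
      intro q hq
      rw [mem_zeroLocus_iff] at hq
      have h2 := hq p (Ideal.mem_span_singleton_self p)
      rw [aeval_X]
      refine key q ?_ i hi
      rw [← h2]
      rfl
    rw [vanishingIdeal_zeroLocus_eq_radical] at h1
    obtain ⟨n, hn⟩ := h1
    exact hp.dvd_of_dvd_pow (Ideal.mem_span_singleton.mp hn)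
  have hk1 : k + 1 ≠ k := (by decide : ∀ k : Fin 3, k + 1 ≠ k) k
  have hk2 : k + 2 ≠ k := (by decide : ∀ k : Fin 3, k + 2 ≠ k) k
  have hk3 : k + 2 ≠ k + 1 := (by decide : ∀ k : Fin 3, k + 2 ≠ k + 1) k
  have a1 : Associated p (X (k + 1)) := (hp.dvd_prime_iff_associated X_prime).mp (dv _ hk1)
  have a2 : (X (k + 1) : S) ∣ X (k + 2) := a1.symm.dvd.trans (dv _ hk2)
  obtain ⟨u, hu⟩ := a2
  have := congrArg (eval (Pi.single (k + 2) (1 : ℂ))) hu
  rw [map_mul, eval_X, eval_X, Pi.single_eq_same, Pi.single_eq_of_ne hk3.symm, zero_mul] at this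
  exact one_ne_zero this

theorem d4 : Pool.Agent.H840.MX.S_D4 := by
  intro F g r hF hg hr hz h a b hab
  obtain ⟨k, hk⟩ : ∃ k, r k ≠ 0 := by
    by_contra hcon
    push Not at hcon
    exact hr (funext hcon)
  have hno := no_common F g r k hk hz
  have hL : lin r ≠ 0 := lin_ne_zero hr
  -- the restriction of `g` vanishes at the origin
  have hg0 : eval (0 : Fin 3 → ℂ) (sg r k g) = 0 := by
    rw [eval_sg]
    have : (fun i => eval (0 : Fin 3 → ℂ) (sg r k (X i))) = 0 := by
      funext i
      rw [sg_X, map_sub, eval_X]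
      split_ifs
      · rw [map_mul, eval_lin, dotProduct_zero, mul_zero, sub_zero]
      · rw [map_zero, sub_zero]
    rw [this]
    have h0 := eval_smul_hom hg 0 0
    rw [smul_zero, zero_pow (by norm_num), zero_mul] at h0
    exact h0
  -- the restriction of `F` is not zero
  have hF0 : sg r k F ≠ 0 := by
    intro hF0
    by_cases hg1 : sg r k g = 0
    · exact hno (X 0) X_prime (hF0 ▸ dvd_zero _) (hg1 ▸ dvd_zero _)
    · by_cases hu : IsUnit (sg r k g)
      · have := hu.map (eval (0 : Fin 3 → ℂ))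
        rw [hg0] at this
        exact not_isUnit_zero this
      · obtain ⟨p, hp, hpg⟩ := WfDvdMonoid.exists_irreducible_factor hu hg1
        exact hno p hp.prime (hF0 ▸ dvd_zero _) hpg
  have hs : 0 = sg r k a * sg r k F + sg r k b * sg r k g := by
    have := congrArg (sg r k) hab
    rw [map_mul, sg_lin r k hk, zero_mul, map_add, map_mul, map_mul] at this
    exact this
  have hd : sg r k F ∣ sg r k b * sg r k g := ⟨- sg r k a, by linear_combination -hs⟩
  have hd2 : sg r k F ∣ sg r k b :=
    UniqueFactorizationMonoid.dvd_of_dvd_mul_left_of_no_prime_factors hF0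
      (fun d h1 h2 hp => hno d hp h1 h2) hd
  obtain ⟨c, hc⟩ := hd2
  have hc2 : sg r k a = - c * sg r k g := by
    have : sg r k F * (sg r k a + c * sg r k g) = 0 := by
      rw [hc] at hs
      linear_combination -hs
    rcases mul_eq_zero.mp this with h0 | h0
    · exact absurd h0 hF0
    · linear_combination h0
  obtain ⟨a1, ha1⟩ := dvd_sub_sg r k a
  obtain ⟨b1, hb1⟩ := dvd_sub_sg r k b
  obtain ⟨F1, hF1⟩ := dvd_sub_sg r k F
  obtain ⟨g1, hg1⟩ := dvd_sub_sg r k g
  refine ⟨a1 + c * g1, b1 - c * F1, mul_left_cancel₀ hL ?_⟩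
  rw [hab]
  linear_combination F * ha1 + g * hb1 + F * hc2 + g * hc + F * c * hg1 - g * c * hF1

end Pool.Agent.H671.MXD4
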