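import Mathlib
import Pool.Agent.H576.RD.Stm

set_option autoImplicit false

open Real

namespace Pool.Agent.H671

open Pool.Agent.H576.RD

namespace RDCYC

noncomputable def b0 : E := EuclideanSpace.single (0 : Fin 3) (1 : ℝ)
noncomputable def b1 : E := EuclideanSpace.single (1 : Fin 3) (1 : ℝ)

theorem b00 : b0 0 = 1 := by simp [b0]
theorem b01 : b0 1 = 0 := by simp [b0]
theorem b02 : b0 2 = 0 := by simp [b0]
theorem b10 : b1 0 = 0 := by simp [b1]
theorem b11 : b1 1 = 1 := by simp [b1]
theorem b12 : b1 2 = 0 := by simp [b1]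
theorem b20 : e2 0 = 0 := by simp [e2]
theorem b21 : e2 1 = 0 := by simp [e2]
theorem b22 : e2 2 = 1 := by simp [e2]

theorem dec (v : E) : v = v 0 • b0 + v 1 • b1 + v 2 • e2 := by
  ext i
  fin_cases i <;> simp [b0, b1, e2]

theorem inn (v w : E) : inner ℝ v w = v 0 * w 0 + v 1 * w 1 + v 2 * w 2 := by
  simp [PiLp.inner_apply, Fin.sum_univ_three, mul_comm]

theorem form (h : LI) (hd : dt h = 1) (he : h e2 = e2) :
    (h b0) 0 ^ 2 + (h b0) 1 ^ 2 = 1 ∧ ∀ v, h v = !₂[(h b0) 0 * v 0 - (h b0) 1 * v 1,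
      (h b0) 1 * v 0 + (h b0) 0 * v 1, v 2] := by
  have i02 := h.inner_map_map b0 e2
  have i12 := h.inner_map_map b1 e2
  have i00 := h.inner_map_map b0 b0
  have i01 := h.inner_map_map b0 b1
  have i11 := h.inner_map_map b1 b1
  rw [he] at i02 i12
  rw [inn, inn] at i02 i12 i00 i01 i11
  have hb : ∀ j : Fin 3, (EuclideanSpace.basisFun (Fin 3) ℝ).toBasis j = EuclideanSpace.single j (1 : ℝ) := by
    intro j; simp
  have hdet : dt h = Matrix.det (LinearMap.toMatrix (EuclideanSpace.basisFun (Fin 3) ℝ).toBasis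
      (EuclideanSpace.basisFun (Fin 3) ℝ).toBasis (h.toLinearEquiv : E →ₗ[ℝ] E)) := by
    rw [LinearMap.det_toMatrix]; rfl
  have hent : ∀ i j : Fin 3, LinearMap.toMatrix (EuclideanSpace.basisFun (Fin 3) ℝ).toBasis
      (EuclideanSpace.basisFun (Fin 3) ℝ).toBasis (h.toLinearEquiv : E →ₗ[ℝ] E) i j =
      (h (EuclideanSpace.single j (1 : ℝ))) i := by
    intro i j
    rw [LinearMap.toMatrix_apply, hb]
    simp
  rw [hd, Matrix.det_fin_three] at hdet
  simp only [hent] at hdet
  change _ = (h b0) 0 * (h b1) 1 * (h e2) 2 - (h b0) 0 * (h e2) 1 * (h b1) 2 - (h b1) 0 * (h b0) 1 * (h e2) 2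
    + (h b1) 0 * (h e2) 1 * (h b0) 2 + (h e2) 0 * (h b0) 1 * (h b1) 2 - (h e2) 0 * (h b1) 1 * (h b0) 2 at hdet
  rw [he] at hdet
  simp only [b00, b01, b02, b10, b11, b12, b20, b21, b22, mul_zero, mul_one, add_zero, zero_add,
    zero_mul, sub_zero] at i02 i12 i00 i01 i11 hdet
  rw [i02] at i00 i01
  rw [i12] at i01 i11
  have ha : (h b0) 0 ^ 2 + (h b0) 1 ^ 2 = 1 := by linear_combination i00
  have hc : (h b1) 0 = - (h b0) 1 := by
    linear_combination (-(h b1) 0) * ha + (h b0) 0 * i01 + (h b0) 1 * hdet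
  have hd' : (h b1) 1 = (h b0) 0 := by
    linear_combination (-(h b1) 1) * ha + (h b0) 1 * i01 - (h b0) 0 * hdet
  refine ⟨ha, fun v => ?_⟩
  have hv : h v = v 0 • h b0 + v 1 • h b1 + v 2 • e2 := by
    conv_lhs => rw [dec v]
    rw [map_add, map_add, map_smul, map_smul, map_smul, he]
  rw [hv]
  ext i
  fin_cases i
  · simp [hc, b20]; ring
  · simp [hd', b21]; ring
  · simp [i02, i12, b22]

/-- the complex number of a rotation about the third axis -/
noncomputable def ch (h : LI) : ℂ := ⟨(h b0) 0, (h b0) 1⟩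

theorem ch_mul {g h : LI} (hg : ∀ v, g v = !₂[(g b0) 0 * v 0 - (g b0) 1 * v 1,
      (g b0) 1 * v 0 + (g b0) 0 * v 1, v 2]) : ch (g * h) = ch g * ch h := by
  have h1 : (g * h) b0 = g (h b0) := rfl
  apply Complex.ext
  · rw [Complex.mul_re]
    show ((g * h) b0) 0 = _
    rw [h1, hg (h b0)]
    simp [ch]
  · rw [Complex.mul_im]
    show ((g * h) b0) 1 = _
    rw [h1, hg (h b0)]
    simp [ch]
    ring

theorem ch_one : ch 1 = 1 := by
  apply Complex.ext
  · show ((1 : LI) b0) 0 = 1
    exact b00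
  · show ((1 : LI) b0) 1 = 0
    exact b01

end RDCYC

open RDCYC in
theorem rd_cyc : S_CYC := by
  intro C p hfin hp hC
  have hne : ‖e2‖ = ‖p‖ := by rw [hp]; simp [e2]
  obtain ⟨β, hβ⟩ : ∃ β : LI, β e2 = p := ⟨_, Submodule.reflection_sub hne⟩
  refine ⟨β, hβ, ?_⟩
  -- the group in the frame
  let cj : LI → LI := fun g => β⁻¹ * g * β
  have hcj : ∀ g v, β (cj g v) = g (β v) := by
    intro g v
    show β (β⁻¹ (g (β v))) = _
    exact LinearIsometryEquiv.apply_symm_apply β _
  have hβi : ∀ v, β⁻¹ (β v) = v := fun v => LinearIsometryEquiv.symm_apply_apply β v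
  have he : ∀ g ∈ C, cj g e2 = e2 := by
    intro g hg
    show β⁻¹ (g (β e2)) = e2
    rw [hβ, (hC g hg).2, ← hβ, hβi]
  have hd : ∀ g ∈ C, dt (cj g) = 1 := by
    intro g hg
    rw [← (hC g hg).1]
    show LinearMap.det ((cj g).toLinearEquiv : E →ₗ[ℝ] E) = LinearMap.det (g.toLinearEquiv : E →ₗ[ℝ] E)
    rw [← LinearMap.det_conj (g.toLinearEquiv : E →ₗ[ℝ] E) (β⁻¹ : LI).toLinearEquiv]
    congr 1
  have hf := fun g hg => form (cj g) (hd g hg) (he g hg)
  let χ : C →* ℂ :=
    { toFun := fun g => ch (cj g)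
      map_one' := by
        have : cj ((1 : C) : LI) = 1 := by
          show β⁻¹ * 1 * β = 1
          group
        show ch (cj ((1 : C) : LI)) = 1
        rw [this, ch_one]
      map_mul' := by
        intro g h
        have : cj ((g * h : C) : LI) = cj g * cj h := by
          show β⁻¹ * ((g : LI) * h) * β = (β⁻¹ * g * β) * (β⁻¹ * h * β)
          group
        show ch (cj ((g * h : C) : LI)) = _
        rw [this]
        exact ch_mul (hf g g.2).2 }
  have hinj : Function.Injective χ := by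
    rw [injective_iff_map_eq_one]
    intro g hg
    have hg' : ch (cj g) = 1 := hg
    have h0 : (cj g b0) 0 = 1 := by
      have := congrArg Complex.re hg'
      simpa [ch] using this
    have h1 : (cj g b0) 1 = 0 := by
      have := congrArg Complex.im hg'
      simpa [ch] using this
    have h2 : ∀ v, cj g v = v := by
      intro v
      rw [(hf g g.2).2 v, h0, h1]
      ext i
      fin_cases i <;> simp
    apply Subtype.ext
    apply LinearIsometryEquiv.ext
    intro v
    have h3 := hcj g (β⁻¹ v)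
    have h4 : β (β⁻¹ v) = v := LinearIsometryEquiv.apply_symm_apply β v
    rw [h2, h4] at h3
    exact h3.symm
  haveI : Fintype C := Fintype.ofFinite C
  have hm : Nat.card C = Fintype.card C := Nat.card_eq_fintype_card
  have hm0 : 0 < Nat.card C := Nat.card_pos
  have hprim := Complex.isPrimitiveRoot_exp (Nat.card C) hm0.ne'
  have himg : Finset.univ.image χ = Polynomial.nthRootsFinset (Nat.card C) (1 : ℂ) := by
    apply Finset.eq_of_subset_of_card_le
    · intro z hz
      obtain ⟨g, -, rfl⟩ := Finset.mem_image.mp hz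
      rw [Polynomial.mem_nthRootsFinset hm0, ← map_pow, pow_card_eq_one', map_one]
    · rw [hprim.card_nthRootsFinset, Finset.card_image_of_injective _ hinj, Finset.card_univ, hm]
  have hmem : Complex.exp (2 * π * Complex.I / (Nat.card C : ℕ)) ∈ Finset.univ.image χ := by
    rw [himg, Polynomial.mem_nthRootsFinset hm0]
    exact hprim.pow_eq_one
  obtain ⟨g, -, hg⟩ := Finset.mem_image.mp hmem
  have hg' : ch (cj g) = Complex.exp (((2 * π / (Nat.card C : ℕ) : ℝ) : ℂ) * Complex.I) := by
    have : ch (cj g) = Complex.exp (2 * π * Complex.I / (Nat.card C : ℕ)) := hg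
    rw [this]
    congr 1
    push_cast
    ring
  refine ⟨g, g.2, fun v => ?_⟩
  rw [← hcj g v, (hf g g.2).2 v]
  have h0 : (cj g b0) 0 = cos (2 * π / (Nat.card C : ℕ)) := by
    have := congrArg Complex.re hg'
    rw [Complex.exp_ofReal_mul_I_re] at this
    exact this
  have h1 : (cj g b0) 1 = sin (2 * π / (Nat.card C : ℕ)) := by
    have := congrArg Complex.im hg'
    rw [Complex.exp_ofReal_mul_I_im] at this
    exact this
  rw [h0, h1]
  rfl

end Pool.Agent.H671

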