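import Pool.Agent.H770.GS.TB

/-! Closed form lower bound for `jj` (TB9). -/

set_option autoImplicit false

open MeasureTheory Set intervalIntegral Filter Topology

namespace Pool.Agent.H671.TBredjj

open Pool.Agent.Helper82.GC Pool.Agent.H770.GS

theorem int5 (a1 a2 a3 a4 a5 r : ℝ) :
    ∫ x in (0:ℝ)..r, (a1 * x + a2 * x ^ 2 + a3 * x ^ 3 + a4 * x ^ 4 + a5 * x ^ 5) =
      a1 * r ^ 2 / 2 + a2 * r ^ 3 / 3 + a3 * r ^ 4 / 4 + a4 * r ^ 5 / 5 + a5 * r ^ 6 / 6 := by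
  have h : ∀ x ∈ uIcc 0 r, HasDerivAt (fun x : ℝ => a1 * x ^ 2 / 2 + a2 * x ^ 3 / 3 +
      a3 * x ^ 4 / 4 + a4 * x ^ 5 / 5 + a5 * x ^ 6 / 6)
      (a1 * x + a2 * x ^ 2 + a3 * x ^ 3 + a4 * x ^ 4 + a5 * x ^ 5) x := by
    intro x _
    have hp : ∀ n : ℕ, HasDerivAt (fun x : ℝ => x ^ n) (n * x ^ (n - 1)) x :=
      fun n => hasDerivAt_pow n x
    have h1 := (((((((hp 2).const_mul a1).div_const 2).add
      (((hp 3).const_mul a2).div_const 3)).add (((hp 4).const_mul a3).div_const 4)).add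
      (((hp 5).const_mul a4).div_const 5)).add (((hp 6).const_mul a5).div_const 6))
    refine h1.congr_deriv ?_
    norm_num
    ring
  rw [intervalIntegral.integral_eq_sub_of_hasDerivAt h
    (Continuous.intervalIntegrable (by fun_prop) _ _)]
  ring

/-- `1 - e^(-a) ≥ a e^(-a/2)` -/
theorem one_sub_exp {a : ℝ} (ha : 0 ≤ a) : a * Real.exp (-(a / 2)) ≤ 1 - Real.exp (-a) := by
  have h1 : a / 2 ≤ Real.sinh (a / 2) := Real.self_le_sinh_iff.2 (by linarith)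
  rw [Real.sinh_eq] at h1
  have h2 : 0 < Real.exp (-(a / 2)) := Real.exp_pos _
  have h3 : Real.exp (-(a / 2)) * Real.exp (a / 2) = 1 := by
    rw [← Real.exp_add]; simp
  have h4 : Real.exp (-a) = Real.exp (-(a / 2)) * Real.exp (-(a / 2)) := by
    rw [← Real.exp_add]; congr 1; ring
  rw [h4]
  nlinarith [mul_le_mul_of_nonneg_left h1 h2.le]

theorem jA_lower {r l : ℝ} (hr : 0 < r) (hl0 : 0 ≤ l) (hl1 : l < 1) :
    (1 - l ^ 2) * r ^ 4 / 8 * Real.exp (-(r ^ 2 * (1 / 2 - 8 * l / 15 - l ^ 2 / 6))) ≤ jA r l := by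
  obtain ⟨g0, hg0⟩ : ∃ g0 : ℝ, g0 = -(r ^ 2 * (1 / 2 - 8 * l / 15 - l ^ 2 / 6)) := ⟨_, rfl⟩
  rw [← hg0]
  have hl2 : 0 ≤ 1 - l ^ 2 := by nlinarith
  have key : (1 - l ^ 2) * r ^ 4 / 8 * Real.exp g0 =
      ∫ x in (0:ℝ)..r, ((1 - l ^ 2) / 2 * Real.exp g0 * ((1 - g0 - (1 - l ^ 2) * r ^ 2 / 4) * r ^ 2) * x +
        (1 - l ^ 2) / 2 * Real.exp g0 * (l * r * r ^ 2) * x ^ 2 +
        (1 - l ^ 2) / 2 * Real.exp g0 * ((-1 + (1 - l ^ 2) / 4) * r ^ 2 -
          (1 - g0 - (1 - l ^ 2) * r ^ 2 / 4)) * x ^ 3 +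
        (1 - l ^ 2) / 2 * Real.exp g0 * (-(l * r)) * x ^ 4 +
        (1 - l ^ 2) / 2 * Real.exp g0 * (-(-1 + (1 - l ^ 2) / 4)) * x ^ 5) := by
    rw [int5, hg0]
    ring
  rw [key]
  unfold jA
  apply intervalIntegral.integral_mono_on hr.le
  · exact Continuous.intervalIntegrable (by fun_prop) _ _
  · exact Continuous.intervalIntegrable (by unfold eE; fun_prop) _ _
  · intro x hx
    have hx0 : 0 ≤ x := hx.1
    have hx2 : 0 ≤ r ^ 2 - x ^ 2 := by nlinarith [hx.1, hx.2]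
    obtain ⟨a, ha⟩ : ∃ a : ℝ, a = (1 - l ^ 2) * (r ^ 2 - x ^ 2) / 2 := ⟨_, rfl⟩
    have ha0 : 0 ≤ a := by rw [ha]; positivity
    have e1 : eE r l x = Real.exp (-a) := by
      rw [ha]
      rfl
    have h1 := one_sub_exp ha0
    have h2 : Real.exp g0 * (1 + ((-x ^ 2 + l * r * x) - a / 2) - g0) ≤
        Real.exp (-x ^ 2 + l * r * x) * Real.exp (-(a / 2)) := by
      rw [← Real.exp_add]
      have h3 := Real.add_one_le_exp ((-x ^ 2 + l * r * x + -(a / 2)) - g0)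
      have h4 : Real.exp (-x ^ 2 + l * r * x + -(a / 2)) =
          Real.exp g0 * Real.exp ((-x ^ 2 + l * r * x + -(a / 2)) - g0) := by
        rw [← Real.exp_add]; congr 1; ring
      rw [h4]
      refine mul_le_mul_of_nonneg_left ?_ (Real.exp_pos _).le
      linarith
    rw [e1]
    have h5 : 0 ≤ x * a := by positivity
    have h6 : 0 ≤ x * Real.exp (-x ^ 2 + l * r * x) := by positivity
    calc _ = x * a * (Real.exp g0 * (1 + ((-x ^ 2 + l * r * x) - a / 2) - g0)) := by rw [ha]; ring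
      _ ≤ x * a * (Real.exp (-x ^ 2 + l * r * x) * Real.exp (-(a / 2))) :=
          mul_le_mul_of_nonneg_left h2 h5
      _ = x * Real.exp (-x ^ 2 + l * r * x) * (a * Real.exp (-(a / 2))) := by ring
      _ ≤ _ := mul_le_mul_of_nonneg_left h1 h6

theorem jB_upper {r l : ℝ} (hl0 : 0 ≤ l) (hl1 : l < 1) :
    jB r l ≤ ((1 - l) * r) ^ 2 *
      (1 / 2 - (1 - Real.exp (-((1 - l) * r ^ 2))) * (3 + l) / 12) := by
  unfold jB
  refine mul_le_mul_of_nonneg_left ?_ (sq_nonneg _)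
  obtain ⟨q, hq⟩ : ∃ q : ℝ, q = Real.exp (-((1 - l) * r ^ 2)) := ⟨_, rfl⟩
  rw [← hq]
  have key : 1 / 2 - (1 - q) * (3 + l) / 12 =
      ∫ x in (0:ℝ)..1, (1 * x + (-(1 - q) * l) * x ^ 2 + (-(1 - q) * (1 - l)) * x ^ 3 +
        0 * x ^ 4 + 0 * x ^ 5) := by
    rw [int5]
    ring
  rw [key]
  unfold bm
  apply intervalIntegral.integral_mono_on (by norm_num)
  · exact Continuous.intervalIntegrable (by fun_prop) _ _
  · exact Continuous.intervalIntegrable (by fun_prop) _ _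
  · intro y hy
    have hy0 : 0 ≤ y := hy.1
    have hy1 : y ≤ 1 := hy.2
    obtain ⟨v, hv⟩ : ∃ v : ℝ, v = (1 - l) * y ^ 2 + l * y := ⟨_, rfl⟩
    have hv0 : 0 ≤ v := by
      rw [hv]
      have : 0 ≤ 1 - l := by linarith
      positivity
    have hv1 : v ≤ 1 := by
      rw [hv]
      nlinarith [mul_nonneg hl0 (sub_nonneg.2 hy1),
        mul_nonneg (sub_nonneg.2 hl1.le) (sub_nonneg.2 (show y ^ 2 ≤ 1 by nlinarith))]
    have h1 : Real.exp (-((1 - l) * r) ^ 2 * y ^ 2 - l * (1 - l) * r ^ 2 * y) ≤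
        (1 - v) * 1 + v * q := by
      have hc := convexOn_exp.2 (mem_univ (0 : ℝ)) (mem_univ (-((1 - l) * r ^ 2)))
        (sub_nonneg.2 hv1) hv0 (by ring)
      rw [smul_eq_mul, smul_eq_mul, smul_eq_mul, smul_eq_mul, Real.exp_zero, ← hq] at hc
      refine le_trans (le_of_eq ?_) hc
      congr 1
      rw [hv]; ring
    calc _ ≤ y ^ 1 * ((1 - v) * 1 + v * q) := mul_le_mul_of_nonneg_left h1 (by positivity)
      _ = _ := by rw [hv]; ring

theorem redjj : S_redjj := by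
  intro r l hr hl0 hl1 h
  rw [jj_eq]
  refine mul_nonneg (Real.exp_pos _).le (sub_nonneg.2 ?_)
  refine (jB_upper hl0 hl1).trans (le_trans ?_ (jA_lower hr hl0 hl1))
  have h1 : 0 ≤ (1 - l) * r ^ 2 := by
    have : 0 ≤ 1 - l := by linarith
    positivity
  have h2 := mul_le_mul_of_nonneg_left h h1
  calc _ = (1 - l) * r ^ 2 *
        ((1 - l) * (1 / 2 - (1 - Real.exp (-((1 - l) * r ^ 2))) * (3 + l) / 12)) := by ring
    _ ≤ _ := h2
    _ = _ := by ring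

end Pool.Agent.H671.TBredjj
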